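import Mathlib

/-!
# Auerbach frames

In every real normed space of dimension at least three there are three vectors of norm at most one
such that the coordinates of their linear combinations are bounded by the norm.
-/

set_option autoImplicit false

namespace Pool.Agent.H43.CB

theorem exists_auerbach (E : Type*) [NormedAddCommGroup E] [NormedSpace ℝ E]
    (h : 3 ≤ Module.rank ℝ E) :
    ∃ L : (Fin 3 → ℝ) →ₗ[ℝ] E, (∀ x i, |x i| ≤ ‖L x‖) ∧
      ∀ x, ‖L x‖ ≤ |x 0| + |x 1| + |x 2| := by
  have h3 : ((3 : ℕ) : Cardinal) ≤ Module.rank ℝ E := by exact_mod_cast h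
  obtain ⟨g, hg⟩ := Module.le_rank_iff_exists_linearMap.1 h3
  have hgc : Continuous g := g.continuous_of_finiteDimensional
  obtain ⟨κ, -, hκ⟩ := g.exists_antilipschitzWith (LinearMap.ker_eq_bot.2 hg)
  set B : Set (Fin 3 → ℝ) := {x | ‖g x‖ ≤ 1} with hB
  have hBc : IsCompact B := by
    refine Metric.isCompact_of_isClosed_isBounded (isClosed_le hgc.norm continuous_const) ?_
    refine (Metric.isBounded_closedBall (x := (0 : Fin 3 → ℝ)) (r := κ)).subset ?_
    intro x hx
    have h1 := hκ.le_mul_dist x 0
    rw [map_zero, dist_zero_right, dist_zero_right] at h1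
    rw [Metric.mem_closedBall, dist_zero_right]
    have h2 : (κ : ℝ) * ‖g x‖ ≤ κ * 1 := mul_le_mul_of_nonneg_left hx κ.coe_nonneg
    linarith
  have hSc : IsCompact (Set.pi Set.univ fun _ : Fin 3 => B) := isCompact_univ_pi fun _ => hBc
  have hSn : (Set.pi Set.univ fun _ : Fin 3 => B).Nonempty := by
    refine ⟨fun _ => 0, fun i _ => ?_⟩
    show ‖g 0‖ ≤ 1
    simp
  have hf : Continuous fun A : Fin 3 → Fin 3 → ℝ => |(Matrix.of A).det| := by
    refine continuous_abs.comp ?_
    exact Continuous.matrix_det (A := fun A : Fin 3 → Fin 3 → ℝ => Matrix.of A) continuous_id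
  obtain ⟨A, hAS, hA⟩ := hSc.exists_isMaxOn hSn hf.continuousOn
  have hAi : ∀ i, ‖g (A i)‖ ≤ 1 := fun i => hAS i (Set.mem_univ i)
  have hmax : ∀ C : Fin 3 → Fin 3 → ℝ, (∀ i, ‖g (C i)‖ ≤ 1) →
      |(Matrix.of C).det| ≤ |(Matrix.of A).det| := fun C hC => hA fun i _ => hC i
  have hdet : (0 : ℝ) < |(Matrix.of A).det| := by
    set e : Fin 3 → Fin 3 → ℝ := fun i => Pi.single i 1 with he
    set c : ℝ := (1 + (‖g (e 0)‖ + ‖g (e 1)‖ + ‖g (e 2)‖))⁻¹ with hc
    have hcpos : 0 < c := by
      rw [hc]
      positivity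
    have h4 : ∀ i, ‖g (c • e i)‖ ≤ 1 := by
      intro i
      rw [map_smul, norm_smul, Real.norm_of_nonneg hcpos.le, hc, inv_mul_le_iff₀ (by positivity)]
      have h5 := norm_nonneg (g (e 0))
      have h6 := norm_nonneg (g (e 1))
      have h7 := norm_nonneg (g (e 2))
      fin_cases i
      · show ‖g (e 0)‖ ≤ _
        linarith
      · show ‖g (e 1)‖ ≤ _
        linarith
      · show ‖g (e 2)‖ ≤ _
        linarith
    have h5 := hmax (fun i => c • e i) h4
    have h6 : (Matrix.of fun i => c • e i) = c • (1 : Matrix (Fin 3) (Fin 3) ℝ) := by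
      ext i j
      simp [he, Matrix.one_apply, Pi.single_apply, eq_comm]
    rw [h6, Matrix.det_smul, Matrix.det_one, mul_one] at h5
    refine lt_of_lt_of_le ?_ h5
    positivity
  refine ⟨∑ i, (LinearMap.proj i).smulRight (g (A i)), ?_, ?_⟩
  · intro x i
    have hL : (∑ i, (LinearMap.proj i).smulRight (g (A i)) : (Fin 3 → ℝ) →ₗ[ℝ] E) x =
        g (∑ k, x k • A k) := by
      simp [LinearMap.sum_apply]
    rw [hL]
    set y := ∑ k, x k • A k with hy
    have key : ∀ s : ℝ, 0 < s → s * ‖g y‖ ≤ 1 → s * |x i| ≤ 1 := by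
      intro s hs hsy
      have h1 := hmax (Function.update A i (s • y)) (by
        intro j
        by_cases hj : j = i
        · subst hj
          rw [Function.update_self, map_smul, norm_smul, Real.norm_of_nonneg hs.le]
          exact hsy
        · rw [Function.update_of_ne hj]
          exact hAi j)
      have h2 : (Matrix.of (Function.update A i (s • y))).det = s * x i * (Matrix.of A).det := by
        have h3 : Matrix.of (Function.update A i (s • y)) =
            (Matrix.of A).updateRow i (s • y) := rfl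
        have h4 : s • y = ∑ k, (s * x k) • (Matrix.of A) k := by
          rw [hy, Finset.smul_sum]
          refine Finset.sum_congr rfl fun k _ => ?_
          rw [smul_smul]
          rfl
        rw [h3, h4, Matrix.det_updateRow_sum]
        simp
      rw [h2, abs_mul, abs_mul, abs_of_pos hs] at h1
      by_contra hcon
      push Not at hcon
      nlinarith
    rcases (norm_nonneg (g y)).eq_or_lt with h0 | h0
    · by_contra hcon
      push Not at hcon
      rw [← h0] at hcon key
      have h1 := key (2 / |x i|) (by positivity) (by simp)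
      rw [div_mul_cancel₀ _ hcon.ne'] at h1
      norm_num at h1
    · have h1 := key (1 / ‖g y‖) (by positivity) (by rw [one_div, inv_mul_cancel₀ h0.ne'])
      rwa [div_mul_eq_mul_div, one_mul, div_le_one h0] at h1
  · intro x
    have hL : (∑ i, (LinearMap.proj i).smulRight (g (A i)) : (Fin 3 → ℝ) →ₗ[ℝ] E) x =
        x 0 • g (A 0) + x 1 • g (A 1) + x 2 • g (A 2) := by
      simp [Fin.sum_univ_three]
    rw [hL]
    refine norm_add₃_le.trans ?_
    rw [norm_smul, norm_smul, norm_smul]
    have e0 := mul_le_mul_of_nonneg_left (hAi 0) (norm_nonneg (x 0))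
    have e1 := mul_le_mul_of_nonneg_left (hAi 1) (norm_nonneg (x 1))
    have e2 := mul_le_mul_of_nonneg_left (hAi 2) (norm_nonneg (x 2))
    rw [mul_one] at e0 e1 e2
    exact add_le_add (add_le_add e0 e1) e2

end Pool.Agent.H43.CB
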