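import Pool.Agent.H43.CB.Graph
import Pool.Agent.H43.CB.Frame

/-!
# Webs are contact graphs of balls

In every real normed space of dimension at least three, the web with threads of length
`K ≥ 100 (2 n + 4) ^ 8` over a graph with `n` vertices is a contact graph of balls. The knots are
balls around points of the moment curve, and the threads are chains of equal balls on segments
between these points.
-/

set_option autoImplicit false

namespace Pool.Agent.H43.CB

/-- The graph `G` is a contact graph of balls of `E` with radii between `1` and `ρ`: a ball with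
such a radius is attached to every vertex such that the open balls of different vertices are
disjoint, and two different vertices are adjacent iff their closed balls meet. -/
def ContactGraph (E : Type*) [NormedAddCommGroup E] (ρ : ℝ) {V : Type*} (G : SimpleGraph V) :
    Prop :=
  ∃ (c : V → E) (r : V → ℝ), (∀ v, 1 ≤ r v ∧ r v ≤ ρ) ∧
    (∀ u v, u ≠ v → Disjoint (Metric.ball (c u) (r u)) (Metric.ball (c v) (r v))) ∧
    ∀ u v, u ≠ v →
      (G.Adj u v ↔ (Metric.closedBall (c u) (r u) ∩ Metric.closedBall (c v) (r v)).Nonempty)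

theorem ContactGraph.of_iso {E : Type*} [NormedAddCommGroup E] {ρ : ℝ} {V W : Type*}
    {G : SimpleGraph V} {H : SimpleGraph W} (φ : G ≃g H) (h : ContactGraph E ρ H) :
    ContactGraph E ρ G := by
  obtain ⟨c, r, h1, h2, h3⟩ := h
  refine ⟨fun v => c (φ v), fun v => r (φ v), fun v => h1 _, fun u v huv => h2 _ _ ?_,
    fun u v huv => ?_⟩
  · exact fun h => huv (φ.injective h)
  · rw [← h3 _ _ (fun h => huv (φ.injective h)), φ.map_rel_iff]

/-- The distance of two balls which touch or are disjoint. -/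
def Good {E : Type*} [NormedAddCommGroup E] {V : Type*} (G : SimpleGraph V) (c : V → E) (r : V → ℝ)
    (u v : V) : Prop :=
  (G.Adj u v → ‖c u - c v‖ = r u + r v) ∧ (u ≠ v → ¬ G.Adj u v → r u + r v < ‖c u - c v‖)

theorem Good.symm {E : Type*} [NormedAddCommGroup E] {V : Type*} {G : SimpleGraph V} {c : V → E}
    {r : V → ℝ} {u v : V} (h : Good G c r u v) : Good G c r v u := by
  constructor
  · intro h1
    rw [norm_sub_rev, add_comm]
    exact h.1 h1.symm
  · intro h1 h2
    rw [norm_sub_rev, add_comm]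
    exact h.2 h1.symm fun h' => h2 h'.symm

theorem contactGraph_of_good {E : Type*} [NormedAddCommGroup E] [NormedSpace ℝ E] {V : Type*}
    {G : SimpleGraph V} {c : V → E} {r : V → ℝ} {ρ t : ℝ} (ht : 0 < t)
    (hr : ∀ v, 1 ≤ t * r v ∧ t * r v ≤ ρ) (h : ∀ u v, Good G c r u v) :
    ContactGraph E ρ G := by
  have hr0 : ∀ v, 0 ≤ t * r v := fun v => zero_le_one.trans (hr v).1
  have hd : ∀ u v, dist (t • c u) (t • c v) = t * ‖c u - c v‖ := fun u v => by
    rw [dist_eq_norm, ← smul_sub, norm_smul, Real.norm_of_nonneg ht.le]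
  refine ⟨fun v => t • c v, fun v => t * r v, hr, fun u v huv => ?_, fun u v huv => ?_⟩
  · refine Metric.ball_disjoint_ball ?_
    rw [hd, ← mul_add]
    refine mul_le_mul_of_nonneg_left ?_ ht.le
    by_cases hadj : G.Adj u v
    · exact ((h u v).1 hadj).ge
    · exact ((h u v).2 huv hadj).le
  · rw [← Set.not_disjoint_iff_nonempty_inter,
      disjoint_closedBall_closedBall_iff (hr0 u) (hr0 v), hd, not_lt, ← mul_add,
      mul_le_mul_iff_right₀ ht]
    constructor
    · intro hadj
      exact ((h u v).1 hadj).le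
    · intro hle
      by_contra hadj
      exact absurd ((h u v).2 huv hadj) (not_lt.2 hle)

/-! ### The moment curve -/

/-- The moment curve. -/
def gam (i : ℕ) : Fin 3 → ℝ := ![(i : ℝ), (i : ℝ) ^ 2, (i : ℝ) ^ 3]

theorem one_le_abs_natSub {a b : ℕ} (h : a ≠ b) : (1 : ℝ) ≤ |(a : ℝ) - b| := by
  have h1 : (a : ℤ) - b ≠ 0 := by omega
  have h2 := Int.one_le_abs h1
  exact_mod_cast h2

theorem abs_natSub_le {a b N : ℕ} (ha : a < N) (hb : b < N) : |(a : ℝ) - b| ≤ N := by
  have h1 : ((a : ℕ) : ℝ) ≤ N := by exact_mod_cast ha.le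
  have h2 : ((b : ℕ) : ℝ) ≤ N := by exact_mod_cast hb.le
  have h3 : (0 : ℝ) ≤ a := Nat.cast_nonneg a
  have h4 : (0 : ℝ) ≤ b := Nat.cast_nonneg b
  rw [abs_le]
  constructor <;> linarith

section Curve

variable {E : Type*} [NormedAddCommGroup E] [NormedSpace ℝ E] {L : (Fin 3 → ℝ) →ₗ[ℝ] E}

theorem functional_le (hlo : ∀ x i, |x i| ≤ ‖L x‖) (x : Fin 3 → ℝ) (p q r : ℝ) :
    |p * x 0 + q * x 1 + r * x 2| ≤ (|p| + |q| + |r|) * ‖L x‖ := by
  have h0 := mul_le_mul_of_nonneg_left (hlo x 0) (abs_nonneg p)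
  have h1 := mul_le_mul_of_nonneg_left (hlo x 1) (abs_nonneg q)
  have h2 := mul_le_mul_of_nonneg_left (hlo x 2) (abs_nonneg r)
  rw [← abs_mul] at h0 h1 h2
  calc |p * x 0 + q * x 1 + r * x 2| ≤ |p * x 0| + |q * x 1| + |r * x 2| := abs_add_three _ _ _
    _ ≤ _ := by linarith

theorem three (hlo : ∀ x i, |x i| ≤ ‖L x‖) {N a b c : ℕ} (hab : a ≠ b) (hbc : b ≠ c) (ha : a < N)
    (hc : c < N) (s t : ℝ) :
    |s| ≤ 2 * N * ‖L (s • (gam b - gam a) - t • (gam c - gam a))‖ := by
  set x := s • (gam b - gam a) - t • (gam c - gam a) with hx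
  have h1 := functional_le hlo x (-(a + c)) 1 0
  have h2 : (-(a + c) : ℝ) * x 0 + 1 * x 1 + 0 * x 2 = s * ((b - a) * (b - c)) := by
    simp only [hx, gam, Pi.sub_apply, Pi.smul_apply, smul_eq_mul, Matrix.cons_val_zero,
      Matrix.cons_val_one]
    ring
  rw [h2, abs_mul, abs_mul, abs_neg, abs_one, abs_zero] at h1
  have h3 := one_le_abs_natSub hab.symm
  have h4 := one_le_abs_natSub hbc
  have h5 : 1 ≤ |(b : ℝ) - a| * |(b : ℝ) - c| := one_le_mul_of_one_le_of_one_le h3 h4
  have h6 : |s| ≤ |s| * (|(b : ℝ) - a| * |(b : ℝ) - c|) := le_mul_of_one_le_right (abs_nonneg s) h5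
  have h7 : ((a : ℕ) : ℝ) + 1 ≤ N := by exact_mod_cast ha
  have h8 : ((c : ℕ) : ℝ) + 1 ≤ N := by exact_mod_cast hc
  have h9 : |(a : ℝ) + c| = a + c := abs_of_nonneg (by positivity)
  rw [h9] at h1
  have h10 : ((a : ℝ) + c + 1 + 0) * ‖L x‖ ≤ 2 * N * ‖L x‖ :=
    mul_le_mul_of_nonneg_right (by linarith) (norm_nonneg _)
  linarith

theorem four (hlo : ∀ x i, |x i| ≤ ‖L x‖) {N a b c d : ℕ} (hac : a ≠ c) (had : a ≠ d) (hbc : b ≠ c)
    (hbd : b ≠ d) (hcd : c ≠ d) (ha : a < N) (hb : b < N) (hc : c < N) (hd : d < N) (s t : ℝ) :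
    1 ≤ 14 * (N : ℝ) ^ 4 *
      ‖L ((gam a + s • (gam b - gam a)) - (gam c + t • (gam d - gam c)))‖ := by
  set x := (gam a + s • (gam b - gam a)) - (gam c + t • (gam d - gam c)) with hx
  set A : ℝ := ((c : ℝ) - a) * (c - b) with hA
  set B : ℝ := ((d : ℝ) - a) * (d - b) with hB
  have h1 := functional_le hlo x (a * b * (B - A) - (a + b) * (A * c - B * d))
    ((A * c - B * d) - (a + b) * (B - A)) (B - A)
  have h2 : (a * b * (B - A) - (a + b) * (A * c - B * d)) * x 0 +
      ((A * c - B * d) - (a + b) * (B - A)) * x 1 + (B - A) * x 2 = -(A * B * (c - d)) := by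
    simp only [hx, hA, hB, gam, Pi.sub_apply, Pi.add_apply, Pi.smul_apply, smul_eq_mul,
      Matrix.cons_val_zero, Matrix.cons_val_one, Matrix.cons_val]
    ring
  have hN : (1 : ℝ) ≤ N := by
    have : 1 ≤ N := by omega
    exact_mod_cast this
  have hN0 : (0 : ℝ) ≤ N := by linarith
  have hA1 : 1 ≤ |A| := by
    rw [hA, abs_mul]
    exact one_le_mul_of_one_le_of_one_le (one_le_abs_natSub hac.symm) (one_le_abs_natSub hbc.symm)
  have hB1 : 1 ≤ |B| := by
    rw [hB, abs_mul]
    exact one_le_mul_of_one_le_of_one_le (one_le_abs_natSub had.symm) (one_le_abs_natSub hbd.symm)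
  have hA2 : |A| ≤ N ^ 2 := by
    rw [hA, abs_mul, sq]
    exact mul_le_mul (abs_natSub_le hc ha) (abs_natSub_le hc hb) (abs_nonneg _) hN0
  have hB2 : |B| ≤ N ^ 2 := by
    rw [hB, abs_mul, sq]
    exact mul_le_mul (abs_natSub_le hd ha) (abs_natSub_le hd hb) (abs_nonneg _) hN0
  have hcn : ((c : ℕ) : ℝ) ≤ N := by exact_mod_cast hc.le
  have hdn : ((d : ℕ) : ℝ) ≤ N := by exact_mod_cast hd.le
  have han : ((a : ℕ) : ℝ) ≤ N := by exact_mod_cast ha.le
  have hbn : ((b : ℕ) : ℝ) ≤ N := by exact_mod_cast hb.le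
  have ha0 : (0 : ℝ) ≤ a := Nat.cast_nonneg a
  have hb0 : (0 : ℝ) ≤ b := Nat.cast_nonneg b
  have hc0 : (0 : ℝ) ≤ c := Nat.cast_nonneg c
  have hd0 : (0 : ℝ) ≤ d := Nat.cast_nonneg d
  have hα : |B - A| ≤ 2 * N ^ 2 := (abs_sub _ _).trans (by linarith)
  have hβ : |A * c - B * d| ≤ 2 * N ^ 3 := by
    refine (abs_sub _ _).trans ?_
    rw [abs_mul A, abs_mul B, abs_of_nonneg hc0, abs_of_nonneg hd0]
    have e1 : |A| * c ≤ N ^ 2 * N := mul_le_mul hA2 hcn hc0 (by positivity)
    have e2 : |B| * d ≤ N ^ 2 * N := mul_le_mul hB2 hdn hd0 (by positivity)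
    nlinarith
  have hab : (a : ℝ) + b ≤ 2 * N := by linarith
  have hc1 : |(A * c - B * d) - (a + b) * (B - A)| ≤ 6 * N ^ 3 := by
    refine (abs_sub _ _).trans ?_
    rw [abs_mul, abs_of_nonneg (by linarith : (0 : ℝ) ≤ a + b)]
    have e1 : ((a : ℝ) + b) * |B - A| ≤ 2 * N * (2 * N ^ 2) :=
      mul_le_mul hab hα (abs_nonneg _) (by positivity)
    nlinarith
  have hc2 : |a * b * (B - A) - (a + b) * (A * c - B * d)| ≤ 6 * N ^ 4 := by
    refine (abs_sub _ _).trans ?_
    rw [abs_mul, abs_mul (_ + _), abs_of_nonneg (by linarith : (0 : ℝ) ≤ a + b),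
      abs_of_nonneg (by positivity : (0 : ℝ) ≤ a * b)]
    have e1 : ((a : ℝ) + b) * |A * c - B * d| ≤ 2 * N * (2 * N ^ 3) :=
      mul_le_mul hab hβ (abs_nonneg _) (by positivity)
    have e2 : (a : ℝ) * b * |B - A| ≤ (N * N) * (2 * N ^ 2) :=
      mul_le_mul (mul_le_mul han hbn hb0 hN0) hα (abs_nonneg _) (by positivity)
    nlinarith
  rw [h2, abs_neg, abs_mul, abs_mul] at h1
  have h3 : 1 ≤ |A| * |B| * |(c : ℝ) - d| :=
    one_le_mul_of_one_le_of_one_le (one_le_mul_of_one_le_of_one_le hA1 hB1) (one_le_abs_natSub hcd)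
  have h4 : (N : ℝ) ^ 2 ≤ N ^ 4 := pow_le_pow_right₀ hN (by norm_num)
  have h5 : (N : ℝ) ^ 3 ≤ N ^ 4 := pow_le_pow_right₀ hN (by norm_num)
  have h6 := norm_nonneg (L x)
  have h7 := mul_le_mul_of_nonneg_right (a := ‖L x‖) (b := |a * b * (B - A) - (a + b) *
    (A * c - B * d)| + |(A * c - B * d) - (a + b) * (B - A)| + |B - A|) (c := 14 * (N : ℝ) ^ 4)
    (by linarith) h6
  linarith

/-- The distance of two points of the moment curve. -/
noncomputable def dd (L : (Fin 3 → ℝ) →ₗ[ℝ] E) (i j : ℕ) : ℝ := ‖L (gam j - gam i)‖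

theorem dd_comm (i j : ℕ) : dd L i j = dd L j i := by
  unfold dd
  rw [← neg_sub, map_neg, norm_neg]

theorem one_le_dd (hlo : ∀ x i, |x i| ≤ ‖L x‖) {i j : ℕ} (h : i ≠ j) : 1 ≤ dd L i j := by
  refine le_trans ?_ (hlo (gam j - gam i) 0)
  simp only [gam, Pi.sub_apply, Matrix.cons_val_zero]
  exact one_le_abs_natSub h.symm

theorem dd_le (hup : ∀ x, ‖L x‖ ≤ |x 0| + |x 1| + |x 2|) {N i j : ℕ} (hi : i < N) (hj : j < N) :
    dd L i j ≤ 3 * (N : ℝ) ^ 3 := by
  refine (hup _).trans ?_
  simp only [gam, Pi.sub_apply, Matrix.cons_val_zero, Matrix.cons_val_one, Matrix.cons_val]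
  have hin : ((i : ℕ) : ℝ) ≤ N := by exact_mod_cast hi.le
  have hjn : ((j : ℕ) : ℝ) ≤ N := by exact_mod_cast hj.le
  have hi0 : (0 : ℝ) ≤ i := Nat.cast_nonneg i
  have hj0 : (0 : ℝ) ≤ j := Nat.cast_nonneg j
  have hN : (1 : ℝ) ≤ N := by
    have : 1 ≤ N := by omega
    exact_mod_cast this
  have key : ∀ k : ℕ, |(j : ℝ) ^ k - (i : ℝ) ^ k| ≤ (N : ℝ) ^ k := by
    intro k
    have h1 := pow_le_pow_left₀ hi0 hin k
    have h2 := pow_le_pow_left₀ hj0 hjn k
    have h3 := pow_nonneg hi0 k
    have h4 := pow_nonneg hj0 k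
    rw [abs_le]
    constructor <;> linarith
  have h1 := key 1
  have h2 := key 2
  have h3 := key 3
  rw [pow_one, pow_one, pow_one] at h1
  have h4 : (N : ℝ) ^ 1 ≤ N ^ 3 := pow_le_pow_right₀ hN (by norm_num)
  have h5 : (N : ℝ) ^ 2 ≤ N ^ 3 := pow_le_pow_right₀ hN (by norm_num)
  rw [pow_one] at h4
  linarith

end Curve

/-! ### The balls -/

/-- The number of the target of a thread. -/
def tgt (n : ℕ) (u : Fin n) (w : Fin (n + 2)) : ℕ := if (w : ℕ) = u then n + 2 + u else w

theorem tgt_ne {n : ℕ} (u : Fin n) (w : Fin (n + 2)) : (u : ℕ) ≠ tgt n u w := by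
  unfold tgt
  split_ifs <;> omega

theorem tgt_lt {n : ℕ} (u : Fin n) (w : Fin (n + 2)) : tgt n u w < 2 * n + 4 := by
  have h1 := u.isLt
  have h2 := w.isLt
  unfold tgt
  split_ifs <;> omega

theorem tgt_inj {n : ℕ} {u : Fin n} {w w' : Fin (n + 2)} (h : tgt n u w = tgt n u w') :
    w = w' := by
  have h1 := w.isLt
  have h2 := w'.isLt
  unfold tgt at h
  apply Fin.ext
  split_ifs at h <;> omega

theorem tgt_eq {n : ℕ} {u v : Fin n} {w : Fin (n + 2)} (h : tgt n u w = v) : (w : ℕ) = v := by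
  have h1 := v.isLt
  unfold tgt at h
  split_ifs at h <;> omega

/-- The thread `(u, w)` is half of an edge. -/
def Lnk {n : ℕ} (G : SimpleGraph (Fin n)) (u : Fin n) (w : Fin (n + 2)) : Prop :=
  ∃ v : Fin n, (v : ℕ) = w ∧ G.Adj u v

section Balls

variable {E : Type*} [NormedAddCommGroup E] [NormedSpace ℝ E] (L : (Fin 3 → ℝ) →ₗ[ℝ] E)
  {n K : ℕ} (G : SimpleGraph (Fin n))

/-- The radius of the knots. -/
noncomputable def RR (n : ℕ) : ℝ := 1 / (8 * ((2 * n + 4 : ℕ) : ℝ))

open Classical in
/-- The radius of the balls of a thread. -/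
noncomputable def rho (K : ℕ) (u : Fin n) (w : Fin (n + 2)) : ℝ :=
  (if Lnk G u w then 1 else 1 / 2) * ((dd L u (tgt n u w) / 2 - RR n) / (2 * K))

/-- The relative position of a ball on its segment. -/
noncomputable def pos (K : ℕ) (a : Fin K × Fin n × Fin (n + 2)) : ℝ :=
  (RR n + (2 * (a.1 : ℕ) + 1) * rho L G K a.2.1 a.2.2) / dd L a.2.1 (tgt n a.2.1 a.2.2)

/-- The centres, as points of three-dimensional space. -/
noncomputable def cen (K : ℕ) : Vx K n → Fin 3 → ℝ
  | .inl u => gam u
  | .inr a => gam a.2.1 + pos L G K a • (gam (tgt n a.2.1 a.2.2) - gam a.2.1)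

/-- The radii. -/
noncomputable def radi (K : ℕ) : Vx K n → ℝ
  | .inl _ => RR n
  | .inr a => rho L G K a.2.1 a.2.2

variable {L G}

theorem RR_pos (n : ℕ) : 0 < RR n := by
  unfold RR
  positivity

theorem RR_eq (n : ℕ) : 8 * ((2 * n + 4 : ℕ) : ℝ) * RR n = 1 := by
  unfold RR
  field_simp

theorem four_le (n : ℕ) : (4 : ℝ) ≤ ((2 * n + 4 : ℕ) : ℝ) := by
  have : 4 ≤ 2 * n + 4 := by omega
  exact_mod_cast this

theorem RR_le (n : ℕ) : RR n ≤ 1 / 32 := by
  have h1 := RR_eq n
  have h2 := four_le n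
  have h3 := RR_pos n
  nlinarith

variable (hlo : ∀ x i, |x i| ≤ ‖L x‖) (hup : ∀ x, ‖L x‖ ≤ |x 0| + |x 1| + |x 2|)
  (hK : 100 * (2 * n + 4) ^ 8 ≤ K)

include hlo in
theorem len_ge (u : Fin n) (w : Fin (n + 2)) : 1 ≤ dd L u (tgt n u w) :=
  one_le_dd hlo (tgt_ne u w)

include hup in
theorem len_le (u : Fin n) (w : Fin (n + 2)) :
    dd L u (tgt n u w) ≤ 3 * ((2 * n + 4 : ℕ) : ℝ) ^ 3 :=
  dd_le hup (by omega) (tgt_lt u w)

include hK in
theorem K_ge : 100 * ((2 * n + 4 : ℕ) : ℝ) ^ 8 ≤ K := by exact_mod_cast hK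

include hK in
theorem K_pos : (0 : ℝ) < K := by
  have h1 := K_ge hK
  have h2 := four_le n
  have h3 : 0 < ((2 * n + 4 : ℕ) : ℝ) ^ 8 := by positivity
  linarith

include hlo hK in
theorem full_pos (u : Fin n) (w : Fin (n + 2)) :
    0 < (dd L u (tgt n u w) / 2 - RR n) / (2 * K) := by
  have h1 := len_ge hlo u w
  have h2 := RR_le n
  have h3 := K_pos hK
  refine div_pos (by linarith) (by linarith)

include hlo hK in
theorem rho_pos (u : Fin n) (w : Fin (n + 2)) : 0 < rho L G K u w := by
  have h1 := full_pos hlo hK u w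
  unfold rho
  split_ifs <;> linarith

include hlo hK in
theorem rho_le_full (u : Fin n) (w : Fin (n + 2)) :
    2 * K * rho L G K u w ≤ dd L u (tgt n u w) / 2 - RR n := by
  have h1 := full_pos hlo hK u w
  have h3 := K_pos hK
  have h4 : 2 * (K : ℝ) * ((dd L u (tgt n u w) / 2 - RR n) / (2 * K)) =
    dd L u (tgt n u w) / 2 - RR n := by
    field_simp
  unfold rho
  split_ifs
  · rw [one_mul, h4]
  · nlinarith

theorem rho_lnk (hK0 : (0 : ℝ) < K) {u : Fin n} {w : Fin (n + 2)} (h : Lnk G u w) :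
    4 * K * rho L G K u w = dd L u (tgt n u w) - 2 * RR n := by
  unfold rho
  rw [if_pos h]
  field_simp
  ring

theorem rho_not (hK0 : (0 : ℝ) < K) {u : Fin n} {w : Fin (n + 2)} (h : ¬ Lnk G u w) :
    8 * K * rho L G K u w = dd L u (tgt n u w) - 2 * RR n := by
  unfold rho
  rw [if_neg h]
  field_simp
  ring

include hlo hup hK in
/-- The balls of the threads are tiny. -/
theorem rho_small (u : Fin n) (w : Fin (n + 2)) :
    400 * ((2 * n + 4 : ℕ) : ℝ) ^ 5 * rho L G K u w ≤ 3 := by
  have h1 := rho_le_full (G := G) hlo hK u w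
  have h2 := len_le hup u w
  have h3 := K_ge hK
  have h4 := rho_pos (G := G) hlo hK u w
  have h5 := RR_pos n
  have h6 := four_le n
  set N : ℝ := ((2 * n + 4 : ℕ) : ℝ) with hN
  have h7 : 100 * N ^ 8 * rho L G K u w ≤ K * rho L G K u w :=
    mul_le_mul_of_nonneg_right h3 h4.le
  have h8 : N ^ 3 * (400 * N ^ 5 * rho L G K u w) ≤ N ^ 3 * 3 := by
    have : N ^ 3 * (400 * N ^ 5 * rho L G K u w) = 4 * (100 * N ^ 8 * rho L G K u w) := by ring
    rw [this]
    linarith
  exact le_of_mul_le_mul_left h8 (by positivity)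

include hlo hup hK in
theorem rho_small' (u : Fin n) (w : Fin (n + 2)) :
    400 * ((2 * n + 4 : ℕ) : ℝ) * rho L G K u w ≤ 3 := by
  refine le_trans ?_ (rho_small (G := G) hlo hup hK u w)
  have h4 := rho_pos (G := G) hlo hK u w
  have h6 := four_le n
  refine mul_le_mul_of_nonneg_right ?_ h4.le
  refine mul_le_mul_of_nonneg_left ?_ (by norm_num)
  exact le_self_pow₀ (by linarith) (by norm_num)

include hlo in
theorem pos_mul (a : Fin K × Fin n × Fin (n + 2)) :
    pos L G K a * dd L a.2.1 (tgt n a.2.1 a.2.2) =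
      RR n + (2 * (a.1 : ℕ) + 1) * rho L G K a.2.1 a.2.2 := by
  have h1 := len_ge hlo a.2.1 a.2.2
  unfold pos
  rw [div_mul_cancel₀]
  linarith

include hlo hK in
theorem pos_pos (a : Fin K × Fin n × Fin (n + 2)) : 0 < pos L G K a := by
  have h1 := len_ge hlo a.2.1 a.2.2
  have h4 := rho_pos (G := G) hlo hK a.2.1 a.2.2
  have h5 := RR_pos n
  unfold pos
  positivity

include hlo hK in
/-- A ball of a thread stays in the first half of the segment. -/
theorem pos_mul_le (a : Fin K × Fin n × Fin (n + 2)) :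
    pos L G K a * dd L a.2.1 (tgt n a.2.1 a.2.2) ≤
      dd L a.2.1 (tgt n a.2.1 a.2.2) / 2 - rho L G K a.2.1 a.2.2 := by
  rw [pos_mul hlo]
  have h1 := rho_le_full (G := G) hlo hK a.2.1 a.2.2
  have h4 := rho_pos (G := G) hlo hK a.2.1 a.2.2
  have h5 : ((a.1 : ℕ) : ℝ) + 1 ≤ K := by exact_mod_cast a.1.isLt
  nlinarith

include hlo hK in
theorem pos_le (a : Fin K × Fin n × Fin (n + 2)) : pos L G K a ≤ 1 / 2 := by
  have h1 := pos_mul_le (G := G) hlo hK a
  have h2 := len_ge hlo a.2.1 a.2.2
  have h4 := rho_pos (G := G) hlo hK a.2.1 a.2.2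
  by_contra hcon
  push Not at hcon
  nlinarith

include hlo hup hK in
/-- The relative position is not too small. -/
theorem le_pos (a : Fin K × Fin n × Fin (n + 2)) :
    1 ≤ 24 * ((2 * n + 4 : ℕ) : ℝ) ^ 4 * pos L G K a := by
  have h1 := pos_mul (G := G) hlo a
  have h2 := len_le hup a.2.1 a.2.2
  have h3 := pos_pos (G := G) hlo hK a
  have h4 := rho_pos (G := G) hlo hK a.2.1 a.2.2
  have h5 := RR_eq n
  have h6 := four_le n
  set N : ℝ := ((2 * n + 4 : ℕ) : ℝ) with hN
  have h7 : RR n ≤ pos L G K a * dd L a.2.1 (tgt n a.2.1 a.2.2) := by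
    rw [h1]
    have : 0 ≤ (2 * ((a.1 : ℕ) : ℝ) + 1) * rho L G K a.2.1 a.2.2 := by positivity
    linarith
  have h8 : pos L G K a * dd L a.2.1 (tgt n a.2.1 a.2.2) ≤ pos L G K a * (3 * N ^ 3) :=
    mul_le_mul_of_nonneg_left h2 h3.le
  have h9 : 8 * N * RR n ≤ 8 * N * (pos L G K a * (3 * N ^ 3)) :=
    mul_le_mul_of_nonneg_left (h7.trans h8) (by linarith)
  rw [h5] at h9
  linarith [h9, show 8 * N * (pos L G K a * (3 * N ^ 3)) = 24 * N ^ 4 * pos L G K a by ring]

/-! ### The distances -/

include hlo hup hK in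
/-- A knot and a ball of a thread. -/
theorem good_knot_thread (u : Fin n) (a : Fin K × Fin n × Fin (n + 2)) :
    Good (web K n G) (fun x => L (cen L G K x)) (radi L G K) (.inl u) (.inr a) := by
  have hN := four_le n
  have hR := RR_pos n
  have hR1 := RR_eq n
  have hR2 := RR_le n
  have hρ := rho_pos (G := G) hlo hK a.2.1 a.2.2
  have hρ1 := rho_small' (G := G) hlo hup hK a.2.1 a.2.2
  have hd := len_ge hlo a.2.1 a.2.2
  have hadj : (web K n G).Adj (.inl u) (.inr a) ↔ (a.1 : ℕ) = 0 ∧ u = a.2.1 := by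
    rw [web_adj]
    simp [stp]
  unfold Good
  rw [hadj, ← map_sub]
  show ((a.1 : ℕ) = 0 ∧ u = a.2.1 → ‖L (gam u - (gam a.2.1 + pos L G K a •
      (gam (tgt n a.2.1 a.2.2) - gam a.2.1)))‖ = RR n + rho L G K a.2.1 a.2.2) ∧
    ((.inl u : Vx K n) ≠ .inr a → ¬ ((a.1 : ℕ) = 0 ∧ u = a.2.1) →
      RR n + rho L G K a.2.1 a.2.2 < ‖L (gam u - (gam a.2.1 + pos L G K a •
      (gam (tgt n a.2.1 a.2.2) - gam a.2.1)))‖)
  by_cases hu : u = a.2.1
  · have h1 : ‖L (gam u - (gam a.2.1 + pos L G K a •
        (gam (tgt n a.2.1 a.2.2) - gam a.2.1)))‖ = RR n +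
          (2 * (a.1 : ℕ) + 1) * rho L G K a.2.1 a.2.2 := by
      rw [← pos_mul hlo, hu, sub_add_cancel_left, map_neg, norm_neg, map_smul, norm_smul,
        Real.norm_of_nonneg (pos_pos hlo hK a).le]
      rfl
    rw [h1]
    constructor
    · rintro ⟨h2, -⟩
      rw [h2]
      simp
    · intro _ h2
      have h3 : (a.1 : ℕ) ≠ 0 := fun h => h2 ⟨h, hu⟩
      have h4 : (1 : ℝ) ≤ (a.1 : ℕ) := by
        have : 1 ≤ (a.1 : ℕ) := by omega
        exact_mod_cast this
      nlinarith
  · refine ⟨fun h => absurd h.2 hu, fun _ _ => ?_⟩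
    have hu' : (u : ℕ) ≠ a.2.1 := fun h => hu (Fin.ext h)
    by_cases ht : tgt n a.2.1 a.2.2 = u
    · have h1 : gam u - (gam a.2.1 + pos L G K a • (gam (tgt n a.2.1 a.2.2) - gam a.2.1)) =
          (1 - pos L G K a) • (gam (tgt n a.2.1 a.2.2) - gam a.2.1) := by
        rw [ht]
        module
      have h2 := pos_mul_le (G := G) hlo hK a
      have h3 := pos_le (G := G) hlo hK a
      rw [h1, map_smul, norm_smul, Real.norm_of_nonneg (by linarith)]
      show _ < (1 - pos L G K a) * dd L a.2.1 (tgt n a.2.1 a.2.2)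
      linarith
    · have h1 : gam u - (gam a.2.1 + pos L G K a • (gam (tgt n a.2.1 a.2.2) - gam a.2.1)) =
          (1 : ℝ) • (gam u - gam a.2.1) - pos L G K a • (gam (tgt n a.2.1 a.2.2) - gam a.2.1) := by
        module
      rw [h1]
      have h2 := three (N := 2 * n + 4) hlo (a := a.2.1) (b := u) (c := tgt n a.2.1 a.2.2)
        (Ne.symm hu') (Ne.symm ht) (by omega) (tgt_lt _ _) 1 (pos L G K a)
      rw [abs_one] at h2
      set D := ‖L ((1 : ℝ) • (gam u - gam a.2.1) - pos L G K a •
        (gam (tgt n a.2.1 a.2.2) - gam a.2.1))‖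
      set N : ℝ := ((2 * n + 4 : ℕ) : ℝ)
      by_contra hcon
      push Not at hcon
      have h3 : 2 * N * D ≤ 2 * N * (RR n + rho L G K a.2.1 a.2.2) :=
        mul_le_mul_of_nonneg_left hcon (by linarith)
      nlinarith

/-- The radii of two threads. -/
theorem sum_lt {N D ρ ρ' : ℝ} (hN : 4 ≤ N) (h1 : 400 * N ^ 5 * ρ ≤ 3) (h2 : 400 * N ^ 5 * ρ' ≤ 3)
    (h3 : 1 ≤ 48 * N ^ 5 * D) : ρ + ρ' < D := by
  have h4 : 0 < N ^ 5 := by positivity
  by_contra hcon
  push Not at hcon
  have h5 : N ^ 5 * D ≤ N ^ 5 * (ρ + ρ') := mul_le_mul_of_nonneg_left hcon h4.le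
  nlinarith

theorem le48 {N D c : ℝ} (_ : 4 ≤ N) (hD : 0 ≤ D) (h : 1 ≤ c * D) (hc : c ≤ 48 * N ^ 5) :
    1 ≤ 48 * N ^ 5 * D := h.trans (mul_le_mul_of_nonneg_right hc hD)

include hlo hup hK in
/-- Two balls of threads. -/
theorem good_thread_thread (a b : Fin K × Fin n × Fin (n + 2)) :
    Good (web K n G) (fun x => L (cen L G K x)) (radi L G K) (.inr a) (.inr b) := by
  have hN := four_le n
  have hK0 := K_pos hK
  have hρa := rho_pos (G := G) hlo hK a.2.1 a.2.2
  have hρb := rho_pos (G := G) hlo hK b.2.1 b.2.2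
  have hρa1 := rho_small (G := G) hlo hup hK a.2.1 a.2.2
  have hρb1 := rho_small (G := G) hlo hup hK b.2.1 b.2.2
  have hda := len_ge hlo a.2.1 a.2.2
  have hdb := len_ge hlo b.2.1 b.2.2
  have hpa := pos_pos (G := G) hlo hK a
  have hpb := pos_pos (G := G) hlo hK b
  have hpa1 := pos_le (G := G) hlo hK a
  have hpb1 := pos_le (G := G) hlo hK b
  have hadj : (web K n G).Adj (.inr a) (.inr b) ↔
      (a.2 = b.2 ∧ ((b.1 : ℕ) = a.1 + 1 ∨ (a.1 : ℕ) = b.1 + 1)) ∨
      (((a.1 : ℕ) + 1 = K ∧ (b.1 : ℕ) + 1 = K) ∧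
        ((a.2.2 : ℕ) = b.2.1 ∧ (b.2.2 : ℕ) = a.2.1) ∧ G.Adj a.2.1 b.2.1) := by
    rw [web_adj]
    constructor
    · rintro ((h | h) | (h | h))
      · exact Or.inl ⟨h.1, Or.inl h.2⟩
      · exact Or.inr h
      · exact Or.inl ⟨h.1.symm, Or.inr h.2⟩
      · exact Or.inr ⟨h.1.symm, h.2.1.symm, h.2.2.symm⟩
    · rintro (⟨h, h' | h'⟩ | h)
      · exact Or.inl (Or.inl ⟨h, h'⟩)
      · exact Or.inr (Or.inl ⟨h.symm, h'⟩)
      · exact Or.inl (Or.inr h)
  -- the statement that the balls are far from each other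
  have far : (¬ (web K n G).Adj (.inr a) (.inr b)) →
      1 ≤ 48 * ((2 * n + 4 : ℕ) : ℝ) ^ 5 * ‖L (cen L G K (.inr a)) - L (cen L G K (.inr b))‖ →
      Good (web K n G) (fun x => L (cen L G K x)) (radi L G K) (.inr a) (.inr b) := fun h1 h2 =>
    ⟨fun h => absurd h h1, fun _ _ => sum_lt hN hρa1 hρb1 h2⟩
  obtain ⟨l, u, w⟩ := a
  obtain ⟨m, v, x⟩ := b
  simp only at hρa hρb hρa1 hρb1 hda hdb
  simp only [Prod.mk.injEq] at hadj
  by_cases huv : u = v
  · subst huv
    by_cases hwx : w = x
    · -- the same thread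
      subst hwx
      have hadj' : (web K n G).Adj (.inr (l, u, w)) (.inr (m, u, w)) ↔
          ((m : ℕ) = l + 1 ∨ (l : ℕ) = m + 1) := by
        rw [hadj]
        constructor
        · rintro (h | h)
          · exact h.2
          · exact absurd h.2.2 (SimpleGraph.irrefl G)
        · intro h
          exact Or.inl ⟨⟨rfl, rfl⟩, h⟩
      have hdist : ‖L (cen L G K (.inr (l, u, w))) - L (cen L G K (.inr (m, u, w)))‖ =
          2 * |((l : ℕ) : ℝ) - (m : ℕ)| * rho L G K u w := by
        have h1 : cen L G K (.inr (l, u, w)) - cen L G K (.inr (m, u, w)) =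
            (pos L G K (l, u, w) - pos L G K (m, u, w)) • (gam (tgt n u w) - gam u) := by
          simp only [cen]
          module
        have h2 := pos_mul (G := G) hlo (l, u, w)
        have h3 := pos_mul (G := G) hlo (m, u, w)
        simp only at h2 h3
        rw [← map_sub, h1, map_smul, norm_smul, Real.norm_eq_abs]
        show |pos L G K (l, u, w) - pos L G K (m, u, w)| * dd L u (tgt n u w) = _
        rw [← abs_of_pos (show 0 < dd L u (tgt n u w) by linarith), ← abs_mul, sub_mul, h2, h3]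
        have h4 : RR n + (2 * ((l : ℕ) : ℝ) + 1) * rho L G K u w -
          (RR n + (2 * ((m : ℕ) : ℝ) + 1) * rho L G K u w) =
          2 * ((((l : ℕ) : ℝ) - (m : ℕ)) * rho L G K u w) := by ring
        rw [h4, abs_mul, abs_mul, abs_of_pos hρa, abs_of_pos (by norm_num : (0 : ℝ) < 2)]
        ring
      unfold Good
      rw [hadj', hdist]
      show (_ → _ = rho L G K u w + rho L G K u w) ∧
        (_ → _ → rho L G K u w + rho L G K u w < _)
      constructor
      · rintro (h | h)
        · rw [h]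
          push_cast
          rw [sub_add_cancel_left, abs_neg, abs_one]
          ring
        · rw [h]
          push_cast
          rw [add_sub_cancel_left, abs_one]
          ring
      · intro hne h
        push Not at h
        have hlm : (l : ℕ) ≠ m := by
          intro h'
          apply hne
          rw [Fin.ext h']
        have h5 : (2 : ℝ) ≤ |((l : ℕ) : ℝ) - (m : ℕ)| := by
          have h6 : (2 : ℤ) ≤ |((l : ℕ) : ℤ) - (m : ℕ)| := by
            rw [le_abs]
            omega
          exact_mod_cast h6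
        nlinarith
    · -- two threads at the same knot
      refine far ?_ ?_
      · rw [hadj]
        rintro (h | h)
        · exact hwx h.1.2
        · exact SimpleGraph.irrefl G h.2.2
      · have h1 : cen L G K (.inr (l, u, w)) - cen L G K (.inr (m, u, x)) =
            pos L G K (l, u, w) • (gam (tgt n u w) - gam u) -
              pos L G K (m, u, x) • (gam (tgt n u x) - gam u) := by
          simp only [cen]
          module
        have h2 := three (N := 2 * n + 4) hlo (a := u) (b := tgt n u w) (c := tgt n u x)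
          (tgt_ne u w) (fun h => hwx (tgt_inj h)) (by omega) (tgt_lt _ _)
          (pos L G K (l, u, w)) (pos L G K (m, u, x))
        have h3 := le_pos (G := G) hlo hup hK (l, u, w)
        rw [abs_of_pos hpa, ← h1, map_sub] at h2
        set D := ‖L (cen L G K (.inr (l, u, w))) - L (cen L G K (.inr (m, u, x)))‖
        set N : ℝ := ((2 * n + 4 : ℕ) : ℝ)
        have h4 : 24 * N ^ 4 * pos L G K (l, u, w) ≤ 24 * N ^ 4 * (2 * N * D) :=
          mul_le_mul_of_nonneg_left h2 (by positivity)
        linarith [h4, show 24 * N ^ 4 * (2 * N * D) = 48 * N ^ 5 * D by ring]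
  · have huv' : (u : ℕ) ≠ v := fun h => huv (Fin.ext h)
    have hc4 : 4 * ((2 * n + 4 : ℕ) : ℝ) ≤ 48 * ((2 * n + 4 : ℕ) : ℝ) ^ 5 := by
      have : ((2 * n + 4 : ℕ) : ℝ) ≤ ((2 * n + 4 : ℕ) : ℝ) ^ 5 :=
        le_self_pow₀ (by linarith) (by norm_num)
      nlinarith
    by_cases h1 : tgt n u w = v
    · by_cases h2 : tgt n v x = u
      · -- opposite threads
        have hw : (w : ℕ) = v := tgt_eq h1
        have hx : (x : ℕ) = u := tgt_eq h2
        have hadj' : (web K n G).Adj (.inr (l, u, w)) (.inr (m, v, x)) ↔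
            (((l : ℕ) + 1 = K ∧ (m : ℕ) + 1 = K) ∧ G.Adj u v) := by
          rw [hadj]
          constructor
          · rintro (h | h)
            · exact absurd h.1.1 huv
            · exact ⟨h.1, h.2.2⟩
          · intro h
            exact Or.inr ⟨h.1, ⟨hw, hx⟩, h.2⟩
        have e1 := pos_mul (G := G) hlo (l, u, w)
        have e2 := pos_mul (G := G) hlo (m, v, x)
        simp only at e1 e2
        have hdd : dd L v (tgt n v x) = dd L u (tgt n u w) := by
          rw [h1, h2, dd_comm]
        rw [hdd] at e2 hdb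
        have hdist : ‖L (cen L G K (.inr (l, u, w))) - L (cen L G K (.inr (m, v, x)))‖ =
            dd L u (tgt n u w) - 2 * RR n - (2 * (l : ℕ) + 1) * rho L G K u w -
              (2 * (m : ℕ) + 1) * rho L G K v x := by
          have h3 : cen L G K (.inr (l, u, w)) - cen L G K (.inr (m, v, x)) =
              -((1 - pos L G K (l, u, w) - pos L G K (m, v, x)) • (gam (tgt n u w) - gam u)) := by
            simp only [cen]
            rw [h1, h2]
            module
          rw [← map_sub, h3, map_neg, norm_neg, map_smul, norm_smul,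
            Real.norm_of_nonneg (by linarith)]
          show (1 - pos L G K (l, u, w) - pos L G K (m, v, x)) * dd L u (tgt n u w) = _
          linarith
        have hlK : ((l : ℕ) : ℝ) + 1 ≤ K := by exact_mod_cast l.isLt
        have hmK : ((m : ℕ) : ℝ) + 1 ≤ K := by exact_mod_cast m.isLt
        unfold Good
        rw [hadj', hdist]
        show (_ → _ = rho L G K u w + rho L G K v x) ∧
          (_ → _ → rho L G K u w + rho L G K v x < _)
        by_cases hG : G.Adj u v
        · have f1 := rho_lnk (L := L) hK0 (G := G) (u := u) (w := w) ⟨v, hw.symm, hG⟩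
          have f2 := rho_lnk (L := L) hK0 (G := G) (u := v) (w := x) ⟨u, hx.symm, hG.symm⟩
          rw [hdd, ← f1] at f2
          have f3 : rho L G K v x = rho L G K u w := mul_left_cancel₀ (by linarith) f2
          rw [← f1, f3]
          constructor
          · rintro ⟨⟨h3, h4⟩, -⟩
            have h5 : ((l : ℕ) : ℝ) + 1 = K := by exact_mod_cast h3
            have h6 : ((m : ℕ) : ℝ) + 1 = K := by exact_mod_cast h4
            have h7 : ((l : ℕ) : ℝ) = K - 1 := by linarith
            have h8 : ((m : ℕ) : ℝ) = K - 1 := by linarith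
            rw [h7, h8]
            ring
          · intro _ h3
            have h4 : (l : ℕ) + (m : ℕ) + 3 ≤ 2 * K := by
              have := l.isLt
              have := m.isLt
              by_contra h5
              exact h3 ⟨⟨by omega, by omega⟩, hG⟩
            have h5 : ((l : ℕ) : ℝ) + (m : ℕ) + 3 ≤ 2 * K := by exact_mod_cast h4
            nlinarith
        · have g1 : ¬ Lnk G u w := by
            rintro ⟨y, hy, hy'⟩
            have : y = v := Fin.ext (hy.trans hw)
            exact hG (this ▸ hy')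
          have g2 : ¬ Lnk G v x := by
            rintro ⟨y, hy, hy'⟩
            have : y = u := Fin.ext (hy.trans hx)
            exact hG (this ▸ hy').symm
          have f1 := rho_not (L := L) hK0 g1
          have f2 := rho_not (L := L) hK0 g2
          rw [hdd, ← f1] at f2
          have f3 : rho L G K v x = rho L G K u w := mul_left_cancel₀ (by linarith) f2
          rw [← f1, f3]
          refine ⟨fun h => absurd h.2 hG, fun _ _ => ?_⟩
          nlinarith
      · -- the first thread runs to the second knot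
        refine far ?_ ?_
        · rw [hadj]
          rintro (h | h)
          · exact huv h.1.1
          · apply h2
            have h3 : (x : ℕ) = u := h.2.1.2
            unfold tgt
            rw [if_neg (by omega), h3]
        · have h3 : cen L G K (.inr (l, u, w)) - cen L G K (.inr (m, v, x)) =
              (1 - pos L G K (l, u, w)) • (gam u - gam v) -
                pos L G K (m, v, x) • (gam (tgt n v x) - gam v) := by
            simp only [cen]
            rw [h1]
            module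
          have h4 := three (N := 2 * n + 4) hlo (a := v) (b := u) (c := tgt n v x)
            (Ne.symm huv') (Ne.symm h2) (by omega) (tgt_lt _ _)
            (1 - pos L G K (l, u, w)) (pos L G K (m, v, x))
          rw [abs_of_pos (by linarith), ← h3, map_sub] at h4
          refine le48 (c := 4 * ((2 * n + 4 : ℕ) : ℝ)) hN (norm_nonneg _) ?_ hc4
          linarith
    · by_cases h2 : tgt n v x = u
      · -- the second thread runs to the first knot
        refine far ?_ ?_
        · rw [hadj]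
          rintro (h | h)
          · exact huv h.1.1
          · apply h1
            have h3 : (w : ℕ) = v := h.2.1.1
            unfold tgt
            rw [if_neg (by omega), h3]
        · have h3 : cen L G K (.inr (m, v, x)) - cen L G K (.inr (l, u, w)) =
              (1 - pos L G K (m, v, x)) • (gam v - gam u) -
                pos L G K (l, u, w) • (gam (tgt n u w) - gam u) := by
            simp only [cen]
            rw [h2]
            module
          have h4 := three (N := 2 * n + 4) hlo (a := u) (b := v) (c := tgt n u w)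
            huv' (Ne.symm h1) (by omega) (tgt_lt _ _)
            (1 - pos L G K (m, v, x)) (pos L G K (l, u, w))
          rw [abs_of_pos (by linarith), ← h3, map_sub, norm_sub_rev] at h4
          refine le48 (c := 4 * ((2 * n + 4 : ℕ) : ℝ)) hN (norm_nonneg _) ?_ hc4
          linarith
      · have hnadj : ¬ (web K n G).Adj (.inr (l, u, w)) (.inr (m, v, x)) := by
          rw [hadj]
          rintro (h | h)
          · exact huv h.1.1
          · apply h1
            have h3 : (w : ℕ) = v := h.2.1.1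
            unfold tgt
            rw [if_neg (by omega), h3]
        refine far hnadj ?_
        by_cases h3 : tgt n u w = tgt n v x
        · -- the same target
          have h4 : cen L G K (.inr (l, u, w)) - cen L G K (.inr (m, v, x)) =
              (1 - pos L G K (l, u, w)) • (gam u - gam (tgt n v x)) -
                (1 - pos L G K (m, v, x)) • (gam v - gam (tgt n v x)) := by
            simp only [cen]
            rw [h3]
            module
          have h5 := three (N := 2 * n + 4) hlo (a := tgt n v x) (b := u) (c := v)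
            h2 huv' (tgt_lt _ _) (by omega)
            (1 - pos L G K (l, u, w)) (1 - pos L G K (m, v, x))
          rw [abs_of_pos (by linarith), ← h4, map_sub] at h5
          refine le48 (c := 4 * ((2 * n + 4 : ℕ) : ℝ)) hN (norm_nonneg _) ?_ hc4
          linarith
        · -- four different points
          have h4 := four (N := 2 * n + 4) hlo (a := u) (b := tgt n u w) (c := v)
            (d := tgt n v x) huv' (Ne.symm h2) h1 h3 (tgt_ne v x) (by omega)
            (tgt_lt _ _) (by omega) (tgt_lt _ _) (pos L G K (l, u, w)) (pos L G K (m, v, x))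
          have h5 : cen L G K (.inr (l, u, w)) - cen L G K (.inr (m, v, x)) =
              (gam u + pos L G K (l, u, w) • (gam (tgt n u w) - gam u)) -
                (gam v + pos L G K (m, v, x) • (gam (tgt n v x) - gam v)) := rfl
          rw [← h5, map_sub] at h4
          refine le48 (c := 14 * ((2 * n + 4 : ℕ) : ℝ) ^ 4) hN (norm_nonneg _) h4 ?_
          have h6 : ((2 * n + 4 : ℕ) : ℝ) ^ 4 ≤ ((2 * n + 4 : ℕ) : ℝ) ^ 5 :=
            pow_le_pow_right₀ (by linarith) (by norm_num)
          have h7 : 0 < ((2 * n + 4 : ℕ) : ℝ) ^ 4 := by positivity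
          linarith

include hlo hup hK in
theorem web_good (x y : Vx K n) :
    Good (web K n G) (fun x => L (cen L G K x)) (radi L G K) x y := by
  rcases x with u | a
  · rcases y with v | b
    · constructor
      · rintro (h | h)
        · exact absurd h (by simp [stp])
        · exact absurd h (by simp [stp])
      · intro hne _
        have huv : (u : ℕ) ≠ v := by
          intro h
          apply hne
          rw [Fin.ext h]
        have h1 := one_le_dd (L := L) hlo huv.symm
        have h2 := RR_le n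
        show RR n + RR n < ‖L (gam u) - L (gam v)‖
        rw [← map_sub]
        unfold dd at h1
        linarith
    · exact good_knot_thread hlo hup hK u b
  · rcases y with v | b
    · exact (good_knot_thread hlo hup hK v a).symm
    · exact good_thread_thread hlo hup hK a b

end Balls

section Ratio

variable {E : Type*} [NormedAddCommGroup E] [NormedSpace ℝ E] {L : (Fin 3 → ℝ) →ₗ[ℝ] E}
  {n K : ℕ} {G : SimpleGraph (Fin n)} (hlo : ∀ x i, |x i| ≤ ‖L x‖)
  (hup : ∀ x, ‖L x‖ ≤ |x 0| + |x 1| + |x 2|) (hK : 100 * (2 * n + 4) ^ 8 ≤ K)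

include hlo hK in
theorem rho_ge (u : Fin n) (w : Fin (n + 2)) : 15 ≤ 128 * K * rho L G K u w := by
  have h1 := len_ge hlo u w
  have h2 := RR_le n
  have h3 := K_pos hK
  by_cases h : Lnk G u w
  · have := rho_lnk (L := L) h3 h
    linarith
  · have := rho_not (L := L) h3 h
    linarith

include hlo hup hK in
theorem radi_bounds (x : Vx K n) :
    1 ≤ (128 * K / 15) * radi L G K x ∧ (128 * K / 15) * radi L G K x ≤ K := by
  have h2 := RR_le n
  have h3 := K_pos hK
  have h4 := RR_eq n
  have h5 := four_le n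
  have h6 := K_ge hK
  have h7 := RR_pos n
  have h8 : (100 : ℝ) * 4 ^ 8 ≤ K := by
    refine le_trans ?_ h6
    have := pow_le_pow_left₀ (by norm_num) h5 8
    linarith
  rcases x with u | a
  · show 1 ≤ (128 * K / 15) * RR n ∧ (128 * K / 15) * RR n ≤ K
    set N : ℝ := ((2 * n + 4 : ℕ) : ℝ)
    constructor
    · have h9 : N ^ 1 ≤ N ^ 8 := pow_le_pow_right₀ (by linarith) (by norm_num)
      rw [pow_one] at h9
      have h10 : 100 * N * RR n ≤ K * RR n := mul_le_mul_of_nonneg_right (by linarith) h7.le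
      linarith
    · nlinarith
  · show 1 ≤ (128 * K / 15) * rho L G K a.2.1 a.2.2 ∧ (128 * K / 15) * rho L G K a.2.1 a.2.2 ≤ K
    have h9 := rho_ge (G := G) hlo hK a.2.1 a.2.2
    have h10 := rho_small' (G := G) hlo hup hK a.2.1 a.2.2
    have h11 := rho_pos (G := G) hlo hK a.2.1 a.2.2
    constructor
    · linarith
    · have h12 : rho L G K a.2.1 a.2.2 ≤ 3 / 1600 := by nlinarith
      nlinarith

end Ratio

/-- In every real normed space of dimension at least three, webs with long threads are contact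
graphs of balls with radii between `1` and the length of the threads. -/
theorem web_contactGraph (E : Type*) [NormedAddCommGroup E] [NormedSpace ℝ E]
    (h : 3 ≤ Module.rank ℝ E) {n K : ℕ} (hK : 100 * (2 * n + 4) ^ 8 ≤ K)
    (G : SimpleGraph (Fin n)) : ContactGraph E K (web K n G) := by
  obtain ⟨L, hlo, hup⟩ := exists_auerbach E h
  have hK0 := K_pos hK
  exact contactGraph_of_good (c := fun x => L (cen L G K x)) (r := radi L G K)
    (t := 128 * K / 15) (by positivity) (radi_bounds hlo hup hK) (web_good hlo hup hK)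

theorem ContactGraph.mono {E : Type*} [NormedAddCommGroup E] {ρ ρ' : ℝ} {V : Type*}
    {G : SimpleGraph V} (h : ContactGraph E ρ G) (hρ : V → ρ ≤ ρ') : ContactGraph E ρ' G := by
  obtain ⟨c, r, h1, h2, h3⟩ := h
  exact ⟨c, r, fun v => ⟨(h1 v).1, (h1 v).2.trans (hρ v)⟩, h2, h3⟩

end Pool.Agent.H43.CB
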