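import Mathlib

/-!
# Webs

The web over a graph `G` with vertices `0, …, n - 1` has the vertices of `G` (the knots) and, at
every knot `u`, `n + 2` threads `(u, w)`, `w < n + 2`, which are paths of `K` vertices that start
at the knot. The ends of the threads `(u, v)` and `(v, u)` are adjacent if `uv` is an edge.
-/

set_option autoImplicit false

namespace Pool.Agent.H43.CB

/-- The vertices of the web. -/
abbrev Vx (K n : ℕ) : Type := Fin n ⊕ (Fin K × Fin n × Fin (n + 2))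

/-- The edges of the web, in one of the two orientations. -/
def stp (K n : ℕ) (G : SimpleGraph (Fin n)) : Vx K n → Vx K n → Prop
  | .inl _, .inl _ => False
  | .inl u, .inr b => (b.1 : ℕ) = 0 ∧ u = b.2.1
  | .inr _, .inl _ => False
  | .inr a, .inr b => (a.2 = b.2 ∧ (b.1 : ℕ) = a.1 + 1) ∨
      (((a.1 : ℕ) + 1 = K ∧ (b.1 : ℕ) + 1 = K) ∧
        ((a.2.2 : ℕ) = b.2.1 ∧ (b.2.2 : ℕ) = a.2.1) ∧ G.Adj a.2.1 b.2.1)

/-- The web over a graph. -/
def web (K n : ℕ) (G : SimpleGraph (Fin n)) : SimpleGraph (Vx K n) where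
  Adj a b := stp K n G a b ∨ stp K n G b a
  symm := ⟨fun _ _ h => h.symm⟩
  loopless := ⟨by
    rintro (u | a) (h | h)
    · exact h
    · exact h
    · rcases h with h | h
      · omega
      · exact h.2.2.ne rfl
    · rcases h with h | h
      · omega
      · exact h.2.2.ne rfl⟩

theorem web_adj {K n : ℕ} {G : SimpleGraph (Fin n)} {a b : Vx K n} :
    (web K n G).Adj a b ↔ stp K n G a b ∨ stp K n G b a := Iff.rfl

/-- The vertex has at least three neighbours. -/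
def Br {X : Type} (Γ : SimpleGraph X) (x : X) : Prop :=
  ∃ a b c, a ≠ b ∧ a ≠ c ∧ b ≠ c ∧ Γ.Adj x a ∧ Γ.Adj x b ∧ Γ.Adj x c

theorem Br.map {X Y : Type} {Γ : SimpleGraph X} {Δ : SimpleGraph Y} (φ : Γ ≃g Δ) {x : X}
    (h : Br Γ x) : Br Δ (φ x) := by
  obtain ⟨a, b, c, h1, h2, h3, h4, h5, h6⟩ := h
  exact ⟨φ a, φ b, φ c, fun h => h1 (φ.injective h), fun h => h2 (φ.injective h),
    fun h => h3 (φ.injective h), φ.map_rel_iff.2 h4, φ.map_rel_iff.2 h5, φ.map_rel_iff.2 h6⟩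

theorem br_iff {X Y : Type} {Γ : SimpleGraph X} {Δ : SimpleGraph Y} (φ : Γ ≃g Δ) (x : X) :
    Br Δ (φ x) ↔ Br Γ x := by
  constructor
  · intro h
    have := Br.map φ.symm h
    simpa using this
  · exact Br.map φ

/-- Two vertices are linked by a path whose inner vertices have degree at most two. -/
def Lk {X : Type} (Γ : SimpleGraph X) (x y : X) : Prop :=
  ∃ a b, (¬ Br Γ a ∧ ¬ Br Γ b) ∧ (Γ.Adj x a ∧ Γ.Adj y b) ∧
    Relation.ReflTransGen (fun p q => ¬ Br Γ q ∧ Γ.Adj p q) a b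

theorem Lk.map {X Y : Type} {Γ : SimpleGraph X} {Δ : SimpleGraph Y} (φ : Γ ≃g Δ) {x y : X}
    (h : Lk Γ x y) : Lk Δ (φ x) (φ y) := by
  obtain ⟨a, b, ⟨h1, h2⟩, ⟨h3, h4⟩, h5⟩ := h
  refine ⟨φ a, φ b, ⟨fun h => h1 ((br_iff φ a).1 h), fun h => h2 ((br_iff φ b).1 h)⟩,
    ⟨φ.map_rel_iff.2 h3, φ.map_rel_iff.2 h4⟩, ?_⟩
  clear h2 h4
  induction h5 with
  | refl => exact Relation.ReflTransGen.refl
  | tail _ hq ih =>
    exact ih.tail ⟨fun h' => hq.1 ((br_iff φ _).1 h'), φ.map_rel_iff.2 hq.2⟩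

theorem lk_iff {X Y : Type} {Γ : SimpleGraph X} {Δ : SimpleGraph Y} (φ : Γ ≃g Δ) (x y : X) :
    Lk Δ (φ x) (φ y) ↔ Lk Γ x y := by
  constructor
  · intro h
    have := Lk.map φ.symm h
    simpa using this
  · exact Lk.map φ

theorem br_inl {K n : ℕ} (hK : 0 < K) (G : SimpleGraph (Fin n)) (u : Fin n) :
    Br (web K n G) (.inl u) := by
  have hn : 0 < n := u.pos
  refine ⟨.inr (⟨0, hK⟩, u, ⟨0, by omega⟩), .inr (⟨0, hK⟩, u, ⟨1, by omega⟩),
    .inr (⟨0, hK⟩, u, ⟨2, by omega⟩), by simp, by simp, by simp, ?_, ?_, ?_⟩ <;>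
  exact Or.inl ⟨rfl, rfl⟩

theorem not_br_inr {K n : ℕ} (G : SimpleGraph (Fin n)) (a : Fin K × Fin n × Fin (n + 2)) :
    ¬ Br (web K n G) (.inr a) := by
  have key : ∃ p q : Vx K n, ∀ x, (web K n G).Adj (.inr a) x → x = p ∨ x = q := by
    obtain ⟨⟨l, hl⟩, ⟨u, hu⟩, ⟨w, hw⟩⟩ := a
    refine ⟨if h : l = 0 then .inl ⟨u, hu⟩ else .inr (⟨l - 1, by omega⟩, ⟨u, hu⟩, ⟨w, hw⟩),
      if h : l + 1 < K then .inr (⟨l + 1, h⟩, ⟨u, hu⟩, ⟨w, hw⟩) else
        if h' : w < n then .inr (⟨l, hl⟩, ⟨w, h'⟩, ⟨u, by omega⟩) else .inl ⟨u, hu⟩, ?_⟩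
    rintro (v | ⟨⟨m, hm⟩, ⟨v, hv⟩, ⟨w', hw'⟩⟩) (h | h)
    · exact absurd h (by simp [stp])
    · simp only [stp] at h
      left
      rw [dif_pos h.1, h.2]
    · simp only [stp, Prod.mk.injEq, Fin.mk.injEq] at h
      right
      rcases h with ⟨⟨rfl, rfl⟩, rfl⟩ | ⟨⟨h1, h2⟩, ⟨rfl, rfl⟩, _⟩
      · rw [dif_pos hm]
      · rw [dif_neg (by omega), dif_pos hv]
        have : l = m := by omega
        subst this
        rfl
    · simp only [stp, Prod.mk.injEq, Fin.mk.injEq] at h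
      rcases h with ⟨⟨rfl, rfl⟩, rfl⟩ | ⟨⟨h1, h2⟩, ⟨rfl, rfl⟩, _⟩
      · left
        rw [dif_neg (by omega)]
        rfl
      · right
        rw [dif_neg (by omega), dif_pos hv]
        have : l = m := by omega
        subst this
        rfl
  obtain ⟨p, q, h⟩ := key
  rintro ⟨x, y, z, h1, h2, h3, h4, h5, h6⟩
  rcases h x h4 with rfl | rfl <;> rcases h y h5 with rfl | rfl <;> rcases h z h6 with rfl | rfl <;>
    simp_all

theorem br_web_iff {K n : ℕ} (hK : 0 < K) (G : SimpleGraph (Fin n)) (x : Vx K n) :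
    Br (web K n G) x ↔ ∃ u, x = .inl u := by
  rcases x with u | a
  · exact ⟨fun _ => ⟨u, rfl⟩, fun _ => br_inl hK G u⟩
  · refine ⟨fun h => absurd h (not_br_inr G a), ?_⟩
    rintro ⟨u, hu⟩
    exact absurd hu (by simp)

/-- Threads are connected. -/
theorem thread_conn {K n : ℕ} (G : SimpleGraph (Fin n)) (p : Fin n × Fin (n + 2)) :
    ∀ (l : ℕ) (hl : l < K), Relation.ReflTransGen (fun x y => ¬ Br (web K n G) y ∧
      (web K n G).Adj x y) (.inr (⟨0, by omega⟩, p)) (.inr (⟨l, hl⟩, p)) := by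
  intro l
  induction l with
  | zero => intro _; exact Relation.ReflTransGen.refl
  | succ l ih =>
    intro hl
    refine (ih (by omega)).tail ⟨not_br_inr G _, Or.inl (Or.inl ⟨rfl, rfl⟩)⟩

theorem thread_conn' {K n : ℕ} (G : SimpleGraph (Fin n)) (p : Fin n × Fin (n + 2)) :
    ∀ (l : ℕ) (hl : l < K), Relation.ReflTransGen (fun x y => ¬ Br (web K n G) y ∧
      (web K n G).Adj x y) (.inr (⟨l, hl⟩, p)) (.inr (⟨0, by omega⟩, p)) := by
  intro l
  induction l with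
  | zero => intro _; exact Relation.ReflTransGen.refl
  | succ l ih =>
    intro hl
    have hs : stp K n G (.inr (⟨l, by omega⟩, p)) (.inr (⟨l + 1, hl⟩, p)) := Or.inl ⟨rfl, rfl⟩
    exact Relation.ReflTransGen.head ⟨not_br_inr G _, Or.inr hs⟩ (ih (by omega))

theorem lk_of_adj {K n : ℕ} (hK : 0 < K) {G : SimpleGraph (Fin n)} {u v : Fin n}
    (h : G.Adj u v) : Lk (web K n G) (.inl u) (.inl v) := by
  refine ⟨.inr (⟨0, hK⟩, u, ⟨v, by omega⟩), .inr (⟨0, hK⟩, v, ⟨u, by omega⟩),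
    ⟨not_br_inr G _, not_br_inr G _⟩, ⟨Or.inl ⟨rfl, rfl⟩, Or.inl ⟨rfl, rfl⟩⟩, ?_⟩
  have hs : stp K n G (.inr (⟨K - 1, by omega⟩, u, ⟨v, by omega⟩))
      (.inr (⟨K - 1, by omega⟩, v, ⟨u, by omega⟩)) := by
    right
    refine ⟨⟨?_, ?_⟩, ⟨rfl, rfl⟩, h⟩
    · show K - 1 + 1 = K
      omega
    · show K - 1 + 1 = K
      omega
  exact (thread_conn G _ (K - 1) (by omega)).trans
    (Relation.ReflTransGen.head ⟨not_br_inr G _, Or.inl hs⟩ (thread_conn' G _ _ _))

/-- The vertices which can be reached from the thread `(u, w)`. -/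
def Thr (K n : ℕ) (G : SimpleGraph (Fin n)) (u : Fin n) (w : Fin (n + 2)) (x : Vx K n) : Prop :=
  ∃ a, x = .inr a ∧ ((a.2.1 = u ∧ a.2.2 = w) ∨
    ((a.2.1 : ℕ) = w ∧ (a.2.2 : ℕ) = u ∧ G.Adj u a.2.1))

theorem thr_step {K n : ℕ} (hK : 0 < K) {G : SimpleGraph (Fin n)} {u : Fin n} {w : Fin (n + 2)}
    {x y : Vx K n} (hx : Thr K n G u w x) (hy : ¬ Br (web K n G) y) (h : (web K n G).Adj x y) :
    Thr K n G u w y := by
  obtain ⟨a, rfl, ha⟩ := hx
  rcases y with v | b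
  · exact absurd (br_inl hK G v) hy
  refine ⟨b, rfl, ?_⟩
  have key : a.2 = b.2 ∨ ((a.2.2 : ℕ) = b.2.1 ∧ (b.2.2 : ℕ) = a.2.1 ∧ G.Adj a.2.1 b.2.1) := by
    rcases h with h | h
    · rcases h with h | h
      · exact Or.inl h.1
      · exact Or.inr ⟨h.2.1.1, h.2.1.2, h.2.2⟩
    · rcases h with h | h
      · exact Or.inl h.1.symm
      · exact Or.inr ⟨h.2.1.2, h.2.1.1, h.2.2.symm⟩
  rcases key with h1 | ⟨h1, h2, h3⟩
  · rw [← h1]
    exact ha
  · rcases ha with ⟨h4, h5⟩ | ⟨h4, h5, h6⟩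
    · right
      refine ⟨?_, ?_, ?_⟩
      · rw [← h5, h1]
      · rw [h2, h4]
      · rw [← h4]; exact h3
    · left
      refine ⟨Fin.ext ?_, Fin.ext ?_⟩
      · omega
      · omega

theorem adj_of_lk {K n : ℕ} (hK : 0 < K) {G : SimpleGraph (Fin n)} {u v : Fin n} (huv : u ≠ v)
    (h : Lk (web K n G) (.inl u) (.inl v)) : G.Adj u v := by
  obtain ⟨x, y, ⟨h1, h2⟩, ⟨h3, h4⟩, h5⟩ := h
  rcases x with x | a
  · exact absurd (br_inl hK G x) h1
  rcases y with y | b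
  · exact absurd (br_inl hK G y) h2
  have ha : u = a.2.1 := by
    rcases h3 with h3 | h3
    · exact h3.2
    · exact absurd h3 (by simp [stp])
  have hb : v = b.2.1 := by
    rcases h4 with h4 | h4
    · exact h4.2
    · exact absurd h4 (by simp [stp])
  have hthr : Thr K n G u a.2.2 (.inr b) := by
    have h0 : Thr K n G u a.2.2 (.inr a) := ⟨a, rfl, Or.inl ⟨ha.symm, rfl⟩⟩
    generalize (Sum.inr b : Vx K n) = z at h5
    clear h4 h2
    induction h5 with
    | refl => exact h0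
    | tail _ hq ih => exact thr_step hK ih hq.1 hq.2
  obtain ⟨b', hb', hc⟩ := hthr
  have : b = b' := Sum.inr_injective hb'
  subst this
  rcases hc with hc | hc
  · exact absurd (hb.trans hc.1).symm huv
  · rw [hb]
    exact hc.2.2

/-- A graph is determined by its web. -/
theorem iso_of_web {K K' n m : ℕ} (hK : 0 < K) (hK' : 0 < K') {G : SimpleGraph (Fin n)}
    {H : SimpleGraph (Fin m)} (φ : web K n G ≃g web K' m H) : Nonempty (G ≃g H) := by
  have h1 : ∀ u : Fin n, ∃ v : Fin m, φ (.inl u) = .inl v := fun u =>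
    (br_web_iff hK' H _).1 ((br_iff φ _).2 (br_inl hK G u))
  have h2 : ∀ v : Fin m, ∃ u : Fin n, φ.symm (.inl v) = .inl u := fun v =>
    (br_web_iff hK G _).1 ((br_iff φ.symm _).2 (br_inl hK' H v))
  choose f hf using h1
  choose g hg using h2
  have hgf : Function.LeftInverse g f := by
    intro u
    have := hg (f u)
    rw [← hf, RelIso.symm_apply_apply] at this
    exact (Sum.inl_injective this).symm
  have hfg : Function.RightInverse g f := by
    intro v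
    have := hf (g v)
    rw [← hg, RelIso.apply_symm_apply] at this
    exact (Sum.inl_injective this).symm
  refine ⟨⟨⟨f, g, hgf, hfg⟩, ?_⟩⟩
  intro u v
  show H.Adj (f u) (f v) ↔ G.Adj u v
  by_cases huv : u = v
  · subst huv
    simp
  · have hne : f u ≠ f v := fun h => huv (hgf.injective h)
    constructor
    · intro h
      have h3 := lk_of_adj hK' h
      rw [← hf, ← hf, lk_iff φ] at h3
      exact adj_of_lk hK huv h3
    · intro h
      have h3 := lk_of_adj hK h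
      rw [← lk_iff φ, hf, hf] at h3
      exact adj_of_lk hK' hne h3

/-- Isomorphic graphs have isomorphic webs. -/
theorem web_of_iso (K : ℕ) {n m : ℕ} {G : SimpleGraph (Fin n)}
    {H : SimpleGraph (Fin m)} (φ : G ≃g H) : Nonempty (web K n G ≃g web K m H) := by
  have h1 : n = m := by
    have := Fintype.card_congr φ.toEquiv
    simpa using this
  subst h1
  -- the map on columns
  let c : Fin (n + 2) ≃ Fin (n + 2) :=
    (finSumFinEquiv (m := n) (n := 2)).symm.trans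
      ((Equiv.sumCongr φ.toEquiv (Equiv.refl _)).trans finSumFinEquiv)
  have hc : ∀ (w : Fin (n + 2)) (v : Fin n), ((w : ℕ) = v ↔ ((c w : Fin (n + 2)) : ℕ) = φ v) := by
    intro w v
    obtain ⟨s, rfl⟩ := (finSumFinEquiv (m := n) (n := 2)).surjective w
    show _ ↔ (((finSumFinEquiv (m := n) (n := 2)) (Equiv.sumCongr φ.toEquiv (Equiv.refl _)
      ((finSumFinEquiv (m := n) (n := 2)).symm (finSumFinEquiv s))) : Fin (n + 2)) : ℕ) = φ v
    rw [Equiv.symm_apply_apply]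
    rcases s with s | s
    · simp only [finSumFinEquiv_apply_left, Fin.val_castAdd, Equiv.sumCongr_apply, Sum.map_inl]
      constructor
      · intro h
        rw [Fin.ext h]
        rfl
      · intro h
        have h3 : φ s = φ v := Fin.ext h
        rw [φ.injective h3]
    · simp only [finSumFinEquiv_apply_right, Fin.val_natAdd, Equiv.sumCongr_apply, Sum.map_inr,
        Equiv.refl_apply]
      constructor
      · intro h
        have := v.isLt
        omega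
      · intro h
        have := (φ v).isLt
        omega
  let Φ : Vx K n ≃ Vx K n := Equiv.sumCongr φ.toEquiv
    (Equiv.prodCongr (Equiv.refl _) (Equiv.prodCongr φ.toEquiv c))
  have key : ∀ a b : Vx K n, stp K n H (Φ a) (Φ b) ↔ stp K n G a b := by
    rintro (u | ⟨l, u, w⟩) (v | ⟨l', v, w'⟩)
    · exact Iff.rfl
    · show (l' : ℕ) = 0 ∧ φ u = φ v ↔ (l' : ℕ) = 0 ∧ u = v
      rw [φ.injective.eq_iff]
    · exact Iff.rfl
    · show ((φ u, c w) = (φ v, c w') ∧ (l' : ℕ) = l + 1) ∨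
        (((l : ℕ) + 1 = K ∧ (l' : ℕ) + 1 = K) ∧ (((c w : Fin (n + 2)) : ℕ) = φ v ∧
          ((c w' : Fin (n + 2)) : ℕ) = φ u) ∧ H.Adj (φ u) (φ v)) ↔ 
        ((u, w) = (v, w') ∧ (l' : ℕ) = l + 1) ∨
        (((l : ℕ) + 1 = K ∧ (l' : ℕ) + 1 = K) ∧ ((w : ℕ) = v ∧ (w' : ℕ) = u) ∧ G.Adj u v)
      rw [← hc, ← hc, φ.map_rel_iff]
      simp only [Prod.mk.injEq, φ.injective.eq_iff, c.injective.eq_iff]
  refine ⟨⟨Φ, ?_⟩⟩
  intro a b
  show (stp K n H (Φ a) (Φ b) ∨ stp K n H (Φ b) (Φ a)) ↔ (stp K n G a b ∨ stp K n G b a)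
  rw [key, key]

end Pool.Agent.H43.CB
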