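import Pool.Agent.H43.CB.Red
import Pool.Agent.H43.CB.Geo

/-!
# Isomorphism of contact graphs of balls
-/

set_option autoImplicit false

namespace Pool.Agent.NPC.CB43

open Pool.Agent.H43.CB Pool.Agent.NPC.R671 Pool.Agent.NPC.UB129

universe u

/-- In every real normed space of dimension at least three, the graph is a contact graph of balls
with radii between `1` and the number of its vertices. -/
def UniversalContactGraph (n : ℕ) (G : SimpleGraph (Fin n)) : Prop :=
  ∀ (E : Type u) [NormedAddCommGroup E] [NormedSpace ℝ E], 3 ≤ Module.rank ℝ E →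
    ContactGraph E n G

/-- The pair of webs of a string: invalid strings are mapped to a fixed pair. -/
def gmap (x : List Bool) : Mat × Mat :=
  (unbits (Mat × Mat) x).elim (red [], red [[false]]) fun p =>
    bif valid p.1 && valid p.2 then (red p.1, red p.2) else (red [], red [[false]])

theorem poly_gmap : Poly gmap := by
  unfold gmap
  refine Poly.optElim (h := fun _ (p : Mat × Mat) => bif valid p.1 && valid p.2 then
    (red p.1, red p.2) else (red [], red [[false]])) poly_unbits (Poly.const _) ?_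
  refine Poly.cond ?_ ?_ (Poly.const _)
  · exact (poly_valid.comp (Poly.fst (Poly.snd Poly.id))).and
      (poly_valid.comp (Poly.snd (Poly.snd Poly.id)))
  · exact Poly.pair (poly_red.comp (Poly.fst (Poly.snd Poly.id)))
      (poly_red.comp (Poly.snd (Poly.snd Poly.id)))

theorem gmap_spec (x : List Bool) :
    ∃ (n m : ℕ) (G : SimpleGraph (Fin n)) (H : SimpleGraph (Fin m)),
      gmap x = (adjMatrix (WW n G), adjMatrix (WW m H)) ∧
      (x ∈ GI ↔ Nonempty (WW n G ≃g WW m H)) := by
  have e0 : adjMatrix (⊥ : SimpleGraph (Fin 0)) = [] := by simp [adjMatrix]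
  have e1 : adjMatrix (⊥ : SimpleGraph (Fin 1)) = [[false]] := by simp [adjMatrix]
  have hbad : x ∉ GI → gmap x = (red [], red [[false]]) →
      ∃ (n m : ℕ) (G : SimpleGraph (Fin n)) (H : SimpleGraph (Fin m)),
      gmap x = (adjMatrix (WW n G), adjMatrix (WW m H)) ∧
      (x ∈ GI ↔ Nonempty (WW n G ≃g WW m H)) := by
    intro hx hg
    refine ⟨0, 1, ⊥, ⊥, ?_, ?_⟩
    · have h0 := red_adjMatrix (⊥ : SimpleGraph (Fin 0))
      have h1 := red_adjMatrix (⊥ : SimpleGraph (Fin 1))
      rw [e0] at h0
      rw [e1] at h1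
      rw [hg, h0, h1]
    · rw [WW_iso_iff]
      refine iff_of_false hx ?_
      rintro ⟨φ⟩
      exact (φ.symm 0).elim0
  cases hu : unbits (Mat × Mat) x with
  | none =>
    refine hbad ?_ (by unfold gmap; rw [hu]; rfl)
    rintro ⟨n, m, G, H, rfl, _⟩
    rw [unbits_bits] at hu
    exact absurd hu (by simp)
  | some p =>
    obtain ⟨M, M'⟩ := p
    have hx := bits_of_unbits hu
    by_cases hv : valid M = true ∧ valid M' = true
    · obtain ⟨n, G, hG⟩ := (valid_iff M).1 hv.1
      obtain ⟨m, H, hH⟩ := (valid_iff M').1 hv.2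
      refine ⟨n, m, G, H, ?_, ?_⟩
      · unfold gmap
        rw [hu, Option.elim_some, hv.1, hv.2]
        simp only [Bool.and_self, cond_true]
        rw [← hG, ← hH, red_adjMatrix, red_adjMatrix]
      · rw [WW_iso_iff, ← hx, ← hG, ← hH, mem_GI]
    · refine hbad ?_ ?_
      · rintro ⟨n, m, G, H, h, _⟩
        rw [← hx] at h
        have h1 := bits_injective h
        rw [Prod.mk.injEq] at h1
        exact hv ⟨(valid_iff M).2 ⟨n, G, h1.1.symm⟩, (valid_iff M').2 ⟨m, H, h1.2.symm⟩⟩
      · unfold gmap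
        rw [hu, Option.elim_some]
        have : (valid M && valid M') = false := by
          rw [Bool.eq_false_iff]
          intro h
          rw [Bool.and_eq_true] at h
          exact hv h
        simp only [this, cond_false]

theorem universal_WW (n : ℕ) (G : SimpleGraph (Fin n)) :
    UniversalContactGraph.{u} (size n) (WW n G) := by
  intro E _ _ hE
  refine (ContactGraph.of_iso (WWiso n G) (web_contactGraph E hE le_rfl G)).mono fun v => ?_
  have h1 : hgt n ≤ size n := by
    have h2 : 0 < size n := v.pos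
    unfold size at h2 ⊢
    rcases Nat.eq_zero_or_pos n with rfl | hn
    · simp at h2
    · have h3 : 1 ≤ n * (n + 2) := Nat.mul_pos hn (by omega)
      have h4 : hgt n * 1 ≤ hgt n * (n * (n + 2)) := Nat.mul_le_mul_left _ h3
      omega
  exact_mod_cast h1

/-- Isomorphism of contact graphs of balls is as hard as graph isomorphism. -/
theorem main :
    (∃ (N : ℕ → ℕ) (T : ∀ n, SimpleGraph (Fin n) → SimpleGraph (Fin (N n)))
        (F : List Bool → List Bool), PolyTime F ∧
      (∀ n G, F (bits (adjMatrix G)) = bits (adjMatrix (T n G))) ∧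
      (∀ n G, UniversalContactGraph.{u} (N n) (T n G)) ∧
      ∀ n m G H, Nonempty (T n G ≃g T m H) ↔ Nonempty (G ≃g H)) ∧
    ∀ 𝒞 : ∀ n : ℕ, SimpleGraph (Fin n) → Prop,
      (∀ n G, UniversalContactGraph.{u} n G → 𝒞 n G) →
      ((∃ A : List Bool → List Bool, PolyTime A ∧
          ∀ (n m : ℕ) (G : SimpleGraph (Fin n)) (H : SimpleGraph (Fin m)), 𝒞 n G → 𝒞 m H →
            (A (bits (adjMatrix G, adjMatrix H)) = [true] ↔ Nonempty (G ≃g H))) ↔ InP GI) ∧
      ((∀ L : Set (List Bool), InNP L → ∃ g : List Bool → List Bool, PolyTime g ∧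
          ∀ x, ∃ (n m : ℕ) (G : SimpleGraph (Fin n)) (H : SimpleGraph (Fin m)),
            𝒞 n G ∧ 𝒞 m H ∧ g x = bits (adjMatrix G, adjMatrix H) ∧
            (x ∈ L ↔ Nonempty (G ≃g H))) ↔ NPHard GI) := by
  refine ⟨⟨size, WW, _, polyTime_opt (Poly.optMap (o := unbits Mat) (f := fun _ M => red M)
    poly_unbits (poly_red.comp (Poly.snd Poly.id))), ?_, universal_WW, fun n m G H =>
    WW_iso_iff G H⟩, ?_⟩
  · intro n G
    simp only [unbits_bits, Option.map_some, red_adjMatrix]
  · intro 𝒞 h𝒞
    have hB : ∀ n (G : SimpleGraph (Fin n)), 𝒞 _ (WW n G) := fun n G =>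
      h𝒞 _ _ (universal_WW n G)
    refine ⟨?_, ?_⟩
    · constructor
      · rintro ⟨A, hA, h⟩
        refine ⟨fun x => A (bits (gmap x)), H642R2.TMSim.polyTime_comp hA
          (polyTime_bits poly_gmap), fun x => ?_⟩
        obtain ⟨n, m, G, H, h1, h2⟩ := gmap_spec x
        show x ∈ GI ↔ A (bits (gmap x)) = [true]
        rw [h2, h1, h _ _ _ _ (hB _ _) (hB _ _)]
      · rintro ⟨A, hA, h⟩
        exact ⟨A, hA, fun n m G H _ _ => by rw [← h, mem_GI]⟩
    · constructor
      · intro h L hL
        obtain ⟨g, hg, h1⟩ := h L hL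
        refine ⟨g, hg, fun x => ?_⟩
        obtain ⟨n, m, G, H, _, _, h2, h3⟩ := h1 x
        rw [h2, mem_GI, h3]
      · intro h L hL
        obtain ⟨f, hf, hfL⟩ := h L hL
        have hp : PolyTime (fun x => bits (gmap (f x))) :=
          H642R2.TMSim.polyTime_comp (g := fun x => bits (gmap x)) (f := f)
            (polyTime_bits poly_gmap) hf
        refine ⟨fun x => bits (gmap (f x)), hp, fun x => ?_⟩
        obtain ⟨n, m, G, H, h1, h2⟩ := gmap_spec (f x)
        exact ⟨_, _, WW n G, WW m H, hB _ _, hB _ _, congrArg bits h1, (hfL x).trans h2⟩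

end Pool.Agent.NPC.CB43
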