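import Pool.Agent.H43.CB.Graph
import Pool.Graph.R_pool_sql_team_seeded_620a6dc7.H129.UB.Main

/-!
# The web construction on adjacency matrices
-/

set_option autoImplicit false

namespace Pool.Agent.NPC.CB43

open Pool.Agent.H43.CB Pool.Agent.NPC.R671 Pool.Agent.NPC.UB129

/-- The length of the threads of the web over a graph with `n` vertices. -/
def hgt (n : ℕ) : ℕ := 100 * (2 * n + 4) ^ 8

/-- The number of vertices of the web over a graph with `n` vertices. -/
def size (n : ℕ) : ℕ := n + hgt n * (n * (n + 2))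

/-- The vertices of the web are numbered. -/
def dec (K n : ℕ) : Fin (n + K * (n * (n + 2))) ≃ Vx K n :=
  finSumFinEquiv.symm.trans (Equiv.sumCongr (Equiv.refl _)
    (finProdFinEquiv.symm.trans (Equiv.prodCongr (Equiv.refl _) finProdFinEquiv.symm)))

/-- The web over a graph on `{0, ..., n - 1}`, as a graph on `{0, ..., size n - 1}`. -/
def WW (n : ℕ) (G : SimpleGraph (Fin n)) : SimpleGraph (Fin (size n)) :=
  (web (hgt n) n G).comap (dec (hgt n) n)

/-- The numbering is an isomorphism. -/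
def WWiso (n : ℕ) (G : SimpleGraph (Fin n)) : WW n G ≃g web (hgt n) n G :=
  SimpleGraph.Iso.comap (dec (hgt n) n) _

theorem hgt_pos (n : ℕ) : 0 < hgt n := by
  unfold hgt
  positivity

/-- The webs are isomorphic if and only if the graphs are. -/
theorem WW_iso_iff {n m : ℕ} (G : SimpleGraph (Fin n)) (H : SimpleGraph (Fin m)) :
    Nonempty (WW n G ≃g WW m H) ↔ Nonempty (G ≃g H) := by
  constructor
  · rintro ⟨φ⟩
    exact iso_of_web (hgt_pos n) (hgt_pos m) (((WWiso n G).symm.trans φ).trans (WWiso m H))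
  · rintro ⟨φ⟩
    have h1 : n = m := by
      have := Fintype.card_congr φ.toEquiv
      simpa using this
    subst h1
    obtain ⟨ψ⟩ := web_of_iso (hgt n) φ
    exact ⟨((WWiso n G).trans ψ).trans (WWiso n H).symm⟩

/-! ### The web on matrices -/

/-- The level of a ball. -/
def lev (n s : ℕ) : ℕ := (s - n) / (n * (n + 2))

/-- The knot of a ball. -/
def kn (n s : ℕ) : ℕ := (s - n) % (n * (n + 2)) / (n + 2)

/-- The column of a ball. -/
def col (n s : ℕ) : ℕ := (s - n) % (n * (n + 2)) % (n + 2)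

/-- The test for the oriented edges of the web. -/
def stpB (K n : ℕ) (M : Mat) (s t : ℕ) : Bool :=
  if t < n then false
  else if s < n then decide (lev n t = 0) && decide (s = kn n t)
  else ((decide (kn n s = kn n t) && decide (col n s = col n t)) && decide (lev n t = lev n s + 1)) ||
    ((decide (lev n s + 1 = K) && decide (lev n t + 1 = K)) &&
      ((decide (col n s = kn n t) && decide (col n t = kn n s)) && ent M (kn n s) (kn n t)))

/-- The test for adjacency in the web. -/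
def adjB (K n : ℕ) (M : Mat) (s t : ℕ) : Bool := stpB K n M s t || stpB K n M t s

/-- The adjacency matrix of the web. -/
def red (M : Mat) : Mat :=
  (List.range (size M.length)).map fun s => (List.range (size M.length)).map fun t =>
    adjB (hgt M.length) M.length M s t

theorem val_inl {K n : ℕ} (u : Fin n) : (((dec K n).symm (.inl u) : Fin _) : ℕ) = u := rfl

theorem val_inr {K n : ℕ} (l : Fin K) (u : Fin n) (w : Fin (n + 2)) :
    (((dec K n).symm (.inr (l, u, w)) : Fin _) : ℕ) =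
      n + ((w + (n + 2) * u) + n * (n + 2) * l) := rfl

theorem lev_inr {K n : ℕ} (l : Fin K) (u : Fin n) (w : Fin (n + 2)) :
    lev n (((dec K n).symm (.inr (l, u, w)) : Fin _) : ℕ) = l ∧
    kn n (((dec K n).symm (.inr (l, u, w)) : Fin _) : ℕ) = u ∧
    col n (((dec K n).symm (.inr (l, u, w)) : Fin _) : ℕ) = w := by
  have h1 : (w : ℕ) + (n + 2) * u < n * (n + 2) := by
    have h2 := u.isLt
    have h3 := w.isLt
    calc (w : ℕ) + (n + 2) * u < (n + 2) + (n + 2) * u := by omega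
      _ = (u + 1) * (n + 2) := by ring
      _ ≤ n * (n + 2) := Nat.mul_le_mul_right _ h2
  have h0 : 0 < n * (n + 2) := by omega
  rw [val_inr]
  unfold lev kn col
  rw [Nat.add_sub_cancel_left, Nat.add_mul_div_left _ _ h0, Nat.add_mul_mod_self_left,
    Nat.mod_eq_of_lt h1, Nat.div_eq_of_lt h1, Nat.add_mul_div_left _ _ (by omega),
    Nat.add_mul_mod_self_left, Nat.mod_eq_of_lt w.isLt, Nat.div_eq_of_lt w.isLt]
  simp

theorem stpB_iff {K n : ℕ} (G : SimpleGraph (Fin n)) (x y : Vx K n) :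
    stpB K n (adjMatrix G) ((dec K n).symm x : Fin _) ((dec K n).symm y : Fin _) = true ↔
      stp K n G x y := by
  rcases x with u | ⟨l, u, w⟩
  · rcases y with v | ⟨m, v, w'⟩
    · unfold stpB
      rw [val_inl, val_inl, if_pos v.isLt]
      simp [stp]
    · obtain ⟨h1, h2, h3⟩ := lev_inr m v w'
      unfold stpB
      rw [h1, h2, val_inl, val_inr, if_neg (by omega), if_pos u.isLt]
      simp [stp, Fin.ext_iff]
  · rcases y with v | ⟨m, v, w'⟩
    · unfold stpB
      rw [val_inl, if_pos v.isLt]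
      simp [stp]
    · obtain ⟨h1, h2, h3⟩ := lev_inr l u w
      obtain ⟨h4, h5, h6⟩ := lev_inr m v w'
      unfold stpB
      rw [h1, h2, h3, h4, h5, h6, val_inr, val_inr, if_neg (by omega), if_neg (by omega)]
      simp only [stp, Bool.or_eq_true, Bool.and_eq_true, decide_eq_true_eq, ent_adjMatrix,
        Prod.mk.injEq, Fin.ext_iff]

theorem adjB_iff {K n : ℕ} (G : SimpleGraph (Fin n)) (s t : Fin (n + K * (n * (n + 2)))) :
    adjB K n (adjMatrix G) s t = true ↔ (web K n G).Adj (dec K n s) (dec K n t) := by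
  unfold adjB
  rw [web_adj, ← stpB_iff, ← stpB_iff, Equiv.symm_apply_apply, Equiv.symm_apply_apply,
    Bool.or_eq_true]

theorem red_adjMatrix {n : ℕ} (G : SimpleGraph (Fin n)) :
    red (adjMatrix G) = adjMatrix (WW n G) := by
  classical
  unfold red
  rw [length_adjMatrix]
  conv_rhs => unfold adjMatrix
  refine List.ext_getElem (by simp) fun i h1 h2 => ?_
  rw [List.getElem_map, List.getElem_ofFn, List.getElem_range]
  refine List.ext_getElem (by simp) fun j h3 h4 => ?_
  rw [List.getElem_map, List.getElem_ofFn, List.getElem_range]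
  have hi : i < size n := by simpa using h1
  have hj : j < size n := by simpa using h3
  refine Bool.eq_iff_iff.2 (Iff.trans ?_ (@decide_eq_true_iff _ (_)).symm)
  exact adjB_iff (K := hgt n) G ⟨i, hi⟩ ⟨j, hj⟩

/-! ### Polynomial time -/

theorem upoly_hgt : UPoly (fun M : Mat => hgt M.length) := by
  unfold hgt
  have h2 := UPoly.eval upoly_len
    (Polynomial.C 100 * (Polynomial.C 2 * Polynomial.X + Polynomial.C 4) ^ 8)
  simpa using h2

theorem upoly_size : UPoly (fun M : Mat => size M.length) := by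
  unfold size
  exact upoly_len.add (upoly_hgt.mul (upoly_len.mul (upoly_len.add (UPoly.const 2))))

theorem poly_lev : Poly (fun p : ℕ × ℕ => lev p.1 p.2) := by
  unfold lev
  fun_prop

theorem poly_kn : Poly (fun p : ℕ × ℕ => kn p.1 p.2) := by
  unfold kn
  fun_prop

theorem poly_col : Poly (fun p : ℕ × ℕ => col p.1 p.2) := by
  unfold col
  fun_prop

theorem poly_stpB : Poly (fun p : (ℕ × ℕ × Mat) × ℕ × ℕ =>
    stpB p.1.1 p.1.2.1 p.1.2.2 p.2.1 p.2.2) := by
  unfold stpB
  have l1 : Poly (fun p : (ℕ × ℕ × Mat) × ℕ × ℕ => lev p.1.2.1 p.2.1) :=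
    poly_lev.comp (f := fun p : (ℕ × ℕ × Mat) × ℕ × ℕ => (p.1.2.1, p.2.1)) (by fun_prop)
  have l2 : Poly (fun p : (ℕ × ℕ × Mat) × ℕ × ℕ => lev p.1.2.1 p.2.2) :=
    poly_lev.comp (f := fun p : (ℕ × ℕ × Mat) × ℕ × ℕ => (p.1.2.1, p.2.2)) (by fun_prop)
  have k1 : Poly (fun p : (ℕ × ℕ × Mat) × ℕ × ℕ => kn p.1.2.1 p.2.1) :=
    poly_kn.comp (f := fun p : (ℕ × ℕ × Mat) × ℕ × ℕ => (p.1.2.1, p.2.1)) (by fun_prop)
  have k2 : Poly (fun p : (ℕ × ℕ × Mat) × ℕ × ℕ => kn p.1.2.1 p.2.2) :=
    poly_kn.comp (f := fun p : (ℕ × ℕ × Mat) × ℕ × ℕ => (p.1.2.1, p.2.2)) (by fun_prop)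
  have c1 : Poly (fun p : (ℕ × ℕ × Mat) × ℕ × ℕ => col p.1.2.1 p.2.1) :=
    poly_col.comp (f := fun p : (ℕ × ℕ × Mat) × ℕ × ℕ => (p.1.2.1, p.2.1)) (by fun_prop)
  have c2 : Poly (fun p : (ℕ × ℕ × Mat) × ℕ × ℕ => col p.1.2.1 p.2.2) :=
    poly_col.comp (f := fun p : (ℕ × ℕ × Mat) × ℕ × ℕ => (p.1.2.1, p.2.2)) (by fun_prop)
  have e1 : Poly (fun p : (ℕ × ℕ × Mat) × ℕ × ℕ =>
      ent p.1.2.2 (kn p.1.2.1 p.2.1) (kn p.1.2.1 p.2.2)) :=
    poly_ent.comp (f := fun p : (ℕ × ℕ × Mat) × ℕ × ℕ =>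
      (p.1.2.2, kn p.1.2.1 p.2.1, kn p.1.2.1 p.2.2)) (by fun_prop)
  fun_prop

theorem poly_adjB : Poly (fun p : (ℕ × ℕ × Mat) × ℕ × ℕ =>
    adjB p.1.1 p.1.2.1 p.1.2.2 p.2.1 p.2.2) := by
  unfold adjB
  exact poly_stpB.or (poly_stpB.comp (f := fun p : (ℕ × ℕ × Mat) × ℕ × ℕ =>
    (p.1, p.2.2, p.2.1)) (by fun_prop))

theorem poly_red : Poly red := by
  unfold red
  have h1 : Poly (fun M : Mat => List.range (size M.length)) := upoly_size.range
  have h2 : Poly (fun M : Mat => hgt M.length) := upoly_hgt.toPoly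
  have h3 : Poly (fun M : Mat => M.length) := upoly_len.toPoly
  refine Poly.map (F := fun (M : Mat) s => (List.range (size M.length)).map fun t =>
    adjB (hgt M.length) M.length M s t) h1 ?_
  refine Poly.map (l := fun p : Mat × ℕ => List.range (size p.1.length))
    (F := fun (p : Mat × ℕ) t => adjB (hgt p.1.length) p.1.length p.1 p.2 t)
    (h1.comp (Poly.fst Poly.id)) ?_
  exact poly_adjB.comp (f := fun p : (Mat × ℕ) × ℕ =>
    ((hgt p.1.1.length, p.1.1.length, p.1.1), p.1.2, p.2))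
    (Poly.pair (Poly.pair (h2.comp (Poly.fst (Poly.fst Poly.id)))
      (Poly.pair (h3.comp (Poly.fst (Poly.fst Poly.id))) (Poly.fst (Poly.fst Poly.id))))
      (Poly.pair (Poly.snd (Poly.fst Poly.id)) (Poly.snd Poly.id)))

end Pool.Agent.NPC.CB43
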